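import Pool.Agent.MP_8eb1e4_pr.H39.Strips

/-!
Deterministic step: Frostman bounds on strips along a sequence of grids give positive
Hausdorff measure of every projection of the zero set.
-/

open MeasureTheory ProbabilityTheory Set Filter Metric
open scoped NNReal ENNReal Topology

namespace Pool.Agent.MP_8eb1e4_pr.H39

variable {Ω : Type*} {d : ℕ} {X : (ℝ × ℝ) × Fin d → Ω → ℝ}

theorem cnt_strip_le {N : ℕ} (hN : 0 < N) {β γ Λ : ℝ} (hβ0 : 0 < β) (hβ1 : β ≤ 1) (hΛ : 0 < Λ)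
    {ω : Ω} (hω : ω ∈ goodEv X N β γ Λ) {lam y w : ℝ} (hlam : |lam| ≤ 1) (hw : 1 / N ≤ w)
    (hw1 : w ≤ 1) :
    cnt (ev X N) ((grid N).filter (fun q => |(gpt N q).1 + lam * (gpt N q).2 - y| < w)) ω ≤
      2 * Λ * w ^ β * (N : ℝ) ^ γ := by
  have hN' : (0 : ℝ) < N := by exact_mod_cast hN
  have hw0 : 0 < w := lt_of_lt_of_le (by positivity) hw
  rcases ((grid N).filter
    (fun q => |(gpt N q).1 + lam * (gpt N q).2 - y| < w)).eq_empty_or_nonempty with h | ⟨q0, hq0⟩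
  · rw [h]; simp only [cnt, Finset.sum_empty]; positivity
  obtain ⟨hq0g, hq0⟩ := Finset.mem_filter.1 hq0
  obtain ⟨a1, a2, a3, a4⟩ := gpt_mem hN hq0g
  obtain ⟨l1, l2⟩ := abs_le.1 hlam
  have hy : |y| ≤ 5 := by
    obtain ⟨b1, b2⟩ := abs_lt.1 hq0
    rw [abs_le]; constructor <;> nlinarith
  obtain ⟨y1, y2⟩ := abs_le.1 hy
  obtain ⟨l, hl1, hl2⟩ := exists_nat_pow_near_of_lt_one hw0 hw1 (y := 1 / 2) (by norm_num)
    (by norm_num)
  have h2 : (0 : ℝ) < 2 ^ l := by positivity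
  have h21 : (1 : ℝ) ≤ 2 ^ l := one_le_pow₀ (by norm_num)
  rw [one_div, inv_pow] at hl1 hl2
  have hlN : 2 ^ l ≤ N := by
    have h3 : 1 / (N : ℝ) ≤ 1 / 2 ^ l := by rw [one_div (2 ^ l : ℝ)]; exact hw.trans hl2
    have h4 : (2 : ℝ) ^ l ≤ N := le_of_one_div_le_one_div hN' h3
    exact_mod_cast h4
  set u : ℤ := ⌊lam * 2 ^ l⌋ with hu
  set v : ℤ := ⌊y * 2 ^ l⌋ with hv
  have u1 : (u : ℝ) ≤ lam * 2 ^ l := Int.floor_le _
  have u2 : lam * 2 ^ l < u + 1 := Int.lt_floor_add_one _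
  have v1 : (v : ℝ) ≤ y * 2 ^ l := Int.floor_le _
  have v2 : y * 2 ^ l < v + 1 := Int.lt_floor_add_one _
  have hum : u ∈ Finset.Icc (-(2 ^ l : ℤ)) (2 ^ l) := by
    rw [Finset.mem_Icc]
    constructor
    · rw [hu, Int.le_floor]; push_cast; nlinarith
    · have : (u : ℝ) ≤ 2 ^ l := by nlinarith
      exact_mod_cast this
  have hvm : v ∈ Finset.Icc (-(6 * 2 ^ l : ℤ)) (6 * 2 ^ l) := by
    rw [Finset.mem_Icc]
    constructor
    · rw [hv, Int.le_floor]; push_cast; nlinarith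
    · have : (v : ℝ) ≤ 6 * 2 ^ l := by nlinarith
      exact_mod_cast this
  have hgood := hω l hlN u hum v hvm
  have hsub : (grid N).filter (fun q => |(gpt N q).1 + lam * (gpt N q).2 - y| < w) ⊆
      strip N l u v := by
    intro q hq
    obtain ⟨hqg, hq⟩ := Finset.mem_filter.1 hq
    refine Finset.mem_filter.2 ⟨hqg, ?_⟩
    obtain ⟨c1, c2, c3, c4⟩ := gpt_mem hN hqg
    obtain ⟨b1, b2⟩ := abs_lt.1 hq
    set z : ℝ := (2 ^ l)⁻¹ with hz
    have hz0 : 0 < z := by positivity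
    have e1 : (u : ℝ) / 2 ^ l = u * z := div_eq_mul_inv _ _
    have e2 : (v : ℝ) / 2 ^ l = v * z := div_eq_mul_inv _ _
    have e3 : (4 : ℝ) / 2 ^ l = 4 * z := div_eq_mul_inv _ _
    have hzz : 2 ^ l * z = 1 := mul_inv_cancel₀ h2.ne'
    have u3 : u * z ≤ lam := by nlinarith
    have u4 : lam ≤ u * z + z := by nlinarith
    have v3 : v * z ≤ y := by nlinarith
    have v4 : y ≤ v * z + z := by nlinarith
    rw [e1, e2, e3, abs_le]
    constructor <;> nlinarith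
  refine (cnt_mono _ hsub ω).trans (hgood.le.trans ?_)
  have h5 : ((2 : ℝ) ^ l) ^ (-β) ≤ 2 * w ^ β := by
    rw [Real.rpow_neg h2.le, ← Real.inv_rpow h2.le]
    have h6 : ((2 : ℝ) ^ l)⁻¹ ≤ 2 * w := by
      rw [pow_succ, mul_inv] at hl1; linarith
    calc (((2 : ℝ) ^ l)⁻¹) ^ β ≤ (2 * w) ^ β := Real.rpow_le_rpow (by positivity) h6 hβ0.le
      _ = 2 ^ β * w ^ β := Real.mul_rpow (by norm_num) hw0.le
      _ ≤ 2 ^ (1 : ℝ) * w ^ β := by
          gcongr; norm_num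
      _ = 2 * w ^ β := by rw [Real.rpow_one]
  calc Λ * (((2 : ℝ) ^ l) ^ (-β) * (N : ℝ) ^ γ) ≤ Λ * (2 * w ^ β * (N : ℝ) ^ γ) := by gcongr
    _ = _ := by ring

/-- from a vanishing Hausdorff measure on the line to a cover by open intervals. -/
theorem cover_of_hausdorff_zero {S : Set ℝ} {β δ : ℝ} (hβ0 : 0 < β) (hβ1 : β ≤ 1) (hδ0 : 0 < δ)
    (hδ1 : δ ≤ 1) (h : μH[β] S = 0) :
    ∃ y w : ℕ → ℝ, (∀ n, 0 < w n ∧ w n ≤ 1) ∧ (∀ x ∈ S, ∃ n, |x - y n| < w n) ∧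
      ∀ F : Finset ℕ, ∑ n ∈ F, w n ^ β ≤ 2 * δ := by
  classical
  rw [Measure.hausdorffMeasure_apply] at h
  have h1 : ⨅ (t : ℕ → Set ℝ) (_ : S ⊆ ⋃ n, t n) (_ : ∀ n, ediam (t n) ≤ ENNReal.ofReal (1 / 2)),
      ∑' n, ⨆ _ : (t n).Nonempty, ediam (t n) ^ β < ENNReal.ofReal δ := by
    refine lt_of_le_of_lt (le_trans ?_ h.le) (ENNReal.ofReal_pos.2 hδ0)
    exact le_iSup₂_of_le (f := fun (r : ℝ≥0∞) (_ : 0 < r) =>
      ⨅ (t : ℕ → Set ℝ) (_ : S ⊆ ⋃ n, t n) (_ : ∀ n, ediam (t n) ≤ r),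
        ∑' n, ⨆ _ : (t n).Nonempty, ediam (t n) ^ β) (ENNReal.ofReal (1 / 2))
      (ENNReal.ofReal_pos.2 (by norm_num)) le_rfl
  simp only [iInf_lt_iff] at h1
  obtain ⟨t, hcov, hdiam, hsum⟩ := h1
  let y : ℕ → ℝ := fun n => if h : (t n).Nonempty then h.some else 0
  let D : ℕ → ℝ := fun n => (ediam (t n)).toReal
  let η : ℕ → ℝ := fun n => (δ / 2 * (1 / 2) ^ n) ^ β⁻¹
  have hfin : ∀ n, ediam (t n) ≠ ∞ := fun n => ne_top_of_le_ne_top ENNReal.ofReal_ne_top (hdiam n)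
  have hD0 : ∀ n, 0 ≤ D n := fun n => ENNReal.toReal_nonneg
  have hD1 : ∀ n, D n ≤ 1 / 2 := fun n => ENNReal.toReal_le_of_le_ofReal (by norm_num) (hdiam n)
  have hη0 : ∀ n, 0 < η n := fun n => Real.rpow_pos_of_pos (by positivity) _
  have hη1 : ∀ n, η n ≤ 1 / 2 := by
    intro n
    have h2 : δ / 2 * (1 / 2) ^ n ≤ 1 / 2 := by
      have : ((1 : ℝ) / 2) ^ n ≤ 1 := pow_le_one₀ (by norm_num) (by norm_num)
      nlinarith [pow_pos (show (0 : ℝ) < 1 / 2 by norm_num) n]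
    calc η n ≤ (1 / 2) ^ β⁻¹ := Real.rpow_le_rpow (by positivity) h2 (by positivity)
      _ ≤ (1 / 2) ^ (1 : ℝ) := Real.rpow_le_rpow_of_exponent_ge (by norm_num) (by norm_num)
          (one_le_inv₀ hβ0 |>.2 hβ1)
      _ = 1 / 2 := Real.rpow_one _
  refine ⟨y, fun n => D n + η n, fun n => ⟨by linarith [hD0 n, hη0 n], by linarith [hD1 n, hη1 n]⟩,
    ?_, ?_⟩
  · intro x hx
    obtain ⟨n, hn⟩ := mem_iUnion.1 (hcov hx)
    refine ⟨n, ?_⟩
    have hne : (t n).Nonempty := ⟨x, hn⟩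
    have hy : y n ∈ t n := by simp only [y, dif_pos hne]; exact hne.some_mem
    have h3 : edist x (y n) ≤ ediam (t n) := edist_le_ediam_of_mem hn hy
    have h4 : |x - y n| ≤ D n := by
      rw [← Real.dist_eq, dist_edist]
      exact ENNReal.toReal_mono (hfin n) h3
    linarith [hη0 n]
  · intro F
    have h5 : ∑ n ∈ F, D n ^ β ≤ δ := by
      have h6 : ∀ n, ENNReal.ofReal (D n ^ β) ≤ ⨆ _ : (t n).Nonempty, ediam (t n) ^ β := by
        intro n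
        by_cases hne : (t n).Nonempty
        · rw [iSup_pos hne, ← ENNReal.ofReal_rpow_of_nonneg (hD0 n) hβ0.le,
            ENNReal.ofReal_toReal (hfin n)]
        · have : t n = ∅ := not_nonempty_iff_eq_empty.1 hne
          simp [D, this, Real.zero_rpow hβ0.ne']
      have h7 : ENNReal.ofReal (∑ n ∈ F, D n ^ β) ≤ ENNReal.ofReal δ := by
        rw [ENNReal.ofReal_sum_of_nonneg fun n _ => Real.rpow_nonneg (hD0 n) _]
        exact ((Finset.sum_le_sum fun n _ => h6 n).trans (ENNReal.sum_le_tsum F)).trans hsum.le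
      exact (ENNReal.ofReal_le_ofReal_iff hδ0.le).1 h7
    have h8 : ∑ n ∈ F, η n ^ β ≤ δ := by
      have e : ∀ n, η n ^ β = δ / 2 * (1 / 2) ^ n := fun n =>
        Real.rpow_inv_rpow (by positivity) hβ0.ne'
      simp_rw [e]
      rw [← Finset.mul_sum]
      have h9 : ∑ n ∈ F, ((1 : ℝ) / 2) ^ n ≤ 2 :=
        (summable_geometric_two.sum_le_tsum F fun n _ => by positivity).trans
          tsum_geometric_two.le
      nlinarith
    calc ∑ n ∈ F, (D n + η n) ^ β ≤ ∑ n ∈ F, (D n ^ β + η n ^ β) :=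
          Finset.sum_le_sum fun n _ => Real.rpow_add_le_add_rpow (hD0 n) (hη0 n).le hβ0.le hβ1
      _ ≤ 2 * δ := by rw [Finset.sum_add_distrib]; linarith

theorem hausdorff_proj_ne_zero {β γ Λ c : ℝ} (hβ0 : 0 < β) (hβ1 : β ≤ 1) (hΛ : 0 < Λ)
    (hc : 0 < c) {ω : Ω} (hcont : ∀ i, Continuous fun x => X (x, i) ω)
    (hω : ∃ᶠ N in atTop, ω ∈ goodEv X N β γ Λ ∩ bigEv X N γ c) {lam : ℝ} (hlam : |lam| ≤ 1) :
    μH[β] ((fun x : ℝ × ℝ => x.1 + lam * x.2) ''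
      {x | x ∈ Icc (1 : ℝ) 2 ×ˢ Icc (1 : ℝ) 2 ∧ ∀ i, X (x, i) ω = 0}) ≠ 0 := by
  classical
  intro h0
  set δ : ℝ := min 1 (c / (8 * Λ)) with hδ
  have hδ0 : 0 < δ := lt_min one_pos (by positivity)
  obtain ⟨y, w, hw, hcov, hsum⟩ := cover_of_hausdorff_zero hβ0 hβ1 hδ0 (min_le_left _ _) h0
  set Q : Set (ℝ × ℝ) := Icc (1 : ℝ) 2 ×ˢ Icc (1 : ℝ) 2 with hQ
  have hQc : IsCompact Q := isCompact_Icc.prod isCompact_Icc
  let g : ℝ × ℝ → ℝ := fun x => ‖fun i => X (x, i) ω‖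
  have hg : Continuous g := (continuous_pi hcont).norm
  have hZc : IsCompact {x | x ∈ Q ∧ ∀ i, X (x, i) ω = 0} := by
    refine hQc.inter_right ?_
    have : {x : ℝ × ℝ | ∀ i, X (x, i) ω = 0} = ⋂ i, {x | X (x, i) ω = 0} := by ext; simp
    change IsClosed {x : ℝ × ℝ | ∀ i, X (x, i) ω = 0}
    rw [this]
    exact isClosed_iInter fun i => isClosed_eq (hcont i) continuous_const
  let U : ℕ → Set (ℝ × ℝ) := fun n => {x | |x.1 + lam * x.2 - y n| < w n}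
  have hU : ∀ n, IsOpen (U n) := fun n => isOpen_lt (by fun_prop) continuous_const
  obtain ⟨F, hF⟩ := hZc.elim_finite_subcover U hU (by
    intro x hx
    obtain ⟨n, hn⟩ := hcov _ ⟨x, hx, rfl⟩
    exact mem_iUnion.2 ⟨n, hn⟩)
  have hK' : IsCompact (Q \ ⋃ n ∈ F, U n) := hQc.diff (isOpen_biUnion fun n _ => hU n)
  obtain ⟨η, hη0, hη⟩ := hK'.exists_forall_le' hg.continuousOn (a := 0) (by
    intro x hx
    by_contra hle
    have h1 : g x = 0 := le_antisymm (not_lt.1 hle) (norm_nonneg _)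
    have h2 : (fun i => X (x, i) ω) = 0 := norm_eq_zero.1 h1
    exact hx.2 (hF ⟨hx.1, fun i => congrFun h2 i⟩))
  have ev1 : ∀ᶠ N : ℕ in atTop, (√(N : ℝ))⁻¹ < η := by
    have : Tendsto (fun N : ℕ => (√(N : ℝ))⁻¹) atTop (𝓝 0) :=
      tendsto_inv_atTop_zero.comp (Real.tendsto_sqrt_atTop.comp tendsto_natCast_atTop_atTop)
    exact this.eventually (gt_mem_nhds hη0)
  have ev2 : ∀ᶠ N : ℕ in atTop, ∀ n ∈ F, 1 / (N : ℝ) ≤ w n := by
    rw [eventually_all_finset]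
    intro n _
    exact (tendsto_one_div_atTop_nhds_zero_nat.eventually (ge_mem_nhds (hw n).1))
  obtain ⟨N, ⟨hgood, hbig⟩, h1, h2, hN⟩ :=
    (hω.and_eventually (ev1.and (ev2.and (eventually_gt_atTop 0)))).exists
  have hN' : (0 : ℝ) < N := by exact_mod_cast hN
  have hcnt : cnt (ev X N) (grid N) ω ≤ ∑ n ∈ F,
      cnt (ev X N) ((grid N).filter (fun q => |(gpt N q).1 + lam * (gpt N q).2 - y n| < w n)) ω := by
    unfold cnt
    simp_rw [Finset.sum_filter]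
    rw [Finset.sum_comm]
    refine Finset.sum_le_sum fun q hq => ?_
    by_cases hq' : ω ∈ ev X N q
    · have hqQ : gpt N q ∈ Q := by
        obtain ⟨a1, a2, a3, a4⟩ := gpt_mem hN hq
        exact ⟨⟨a1, a2⟩, ⟨a3, a4⟩⟩
      have hgq : g (gpt N q) ≤ (√(N : ℝ))⁻¹ :=
        (pi_norm_le_iff_of_nonneg (by positivity)).2 fun i => hq' i
      have hmem : gpt N q ∈ ⋃ n ∈ F, U n := by
        by_contra hn
        have := hη _ ⟨hqQ, hn⟩
        linarith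
      obtain ⟨n, hn, hqn⟩ := mem_iUnion₂.1 hmem
      refine le_trans ?_ (Finset.single_le_sum (f := fun n =>
        if |(gpt N q).1 + lam * (gpt N q).2 - y n| < w n then
          (ev X N q).indicator (fun _ => (1 : ℝ)) ω else 0) (fun n _ => ?_) hn)
      · exact le_of_eq (if_pos hqn).symm
      · split_ifs
        · exact ind_nonneg _ _
        · exact le_rfl
    · rw [indicator_of_notMem hq']
      simp
  have h3 : ∑ n ∈ F,
      cnt (ev X N) ((grid N).filter (fun q => |(gpt N q).1 + lam * (gpt N q).2 - y n| < w n)) ω ≤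
      2 * Λ * (2 * δ) * (N : ℝ) ^ γ := by
    calc _ ≤ ∑ n ∈ F, 2 * Λ * w n ^ β * (N : ℝ) ^ γ :=
          Finset.sum_le_sum fun n hn => cnt_strip_le hN hβ0 hβ1 hΛ hgood hlam (h2 n hn) (hw n).2
      _ = 2 * Λ * (∑ n ∈ F, w n ^ β) * (N : ℝ) ^ γ := by rw [Finset.mul_sum, Finset.sum_mul]
      _ ≤ _ := by gcongr; exact hsum F
  have h4 : c * (N : ℝ) ^ γ ≤ 2 * Λ * (2 * δ) * (N : ℝ) ^ γ := le_trans hbig (hcnt.trans h3)
  have h5 : c ≤ 2 * Λ * (2 * δ) := le_of_mul_le_mul_right h4 (by positivity)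
  have h6 : δ ≤ c / (8 * Λ) := min_le_right _ _
  rw [le_div_iff₀ (by positivity)] at h6
  nlinarith

end Pool.Agent.MP_8eb1e4_pr.H39
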