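import Mathlib

/-!
Gaussian estimates: small balls, tails, and an abstract local nondeterminism step.
-/

open MeasureTheory ProbabilityTheory Set Filter
open scoped NNReal ENNReal Topology

namespace Pool.Agent.MP_8eb1e4_pr.H39

variable {Ω : Type*} {mΩ : MeasurableSpace Ω} {P : Measure Ω}

theorem gauss_ball_le {v : ℝ≥0} (hv : v ≠ 0) (a ε : ℝ) (hε : 0 ≤ ε) :
    gaussianReal 0 v {w | |a + w| ≤ ε} ≤ ENNReal.ofReal (ε / √v) := by
  have hv' : (0 : ℝ) < v := by positivity
  have hset : {w : ℝ | |a + w| ≤ ε} = Icc (-ε - a) (ε - a) := by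
    ext w; simp only [mem_ofPred_eq, mem_Icc, abs_le]; constructor <;> rintro ⟨h1, h2⟩ <;>
      constructor <;> linarith
  rw [hset, gaussianReal_apply _ hv]
  have hb : ∀ x, gaussianPDF 0 v x ≤ ENNReal.ofReal ((2 * √v)⁻¹) := by
    intro x
    unfold gaussianPDF gaussianPDFReal
    apply ENNReal.ofReal_le_ofReal
    have h1 : Real.exp (-(x - 0) ^ 2 / (2 * v)) ≤ 1 := by
      apply Real.exp_le_one_iff.2
      apply div_nonpos_of_nonpos_of_nonneg
      · simp only [neg_nonpos]; positivity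
      · positivity
    have h2 : 2 * √v ≤ √(2 * Real.pi * v) := by
      apply Real.le_sqrt_of_sq_le
      rw [mul_pow, Real.sq_sqrt hv'.le]
      nlinarith [Real.pi_gt_three]
    have h3 : (√(2 * Real.pi * v))⁻¹ ≤ (2 * √v)⁻¹ := inv_anti₀ (by positivity) h2
    calc (√(2 * Real.pi * v))⁻¹ * Real.exp (-(x - 0) ^ 2 / (2 * v))
        ≤ (√(2 * Real.pi * v))⁻¹ * 1 := by gcongr
      _ ≤ (2 * √v)⁻¹ := by rw [mul_one]; exact h3
  calc ∫⁻ x in Icc (-ε - a) (ε - a), gaussianPDF 0 v x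
      ≤ ∫⁻ _ in Icc (-ε - a) (ε - a), ENNReal.ofReal ((2 * √v)⁻¹) := lintegral_mono hb
    _ = ENNReal.ofReal ((2 * √v)⁻¹) * ENNReal.ofReal (2 * ε) := by
        rw [setLIntegral_const, Real.volume_Icc]; congr 2; ring
    _ = ENNReal.ofReal (ε / √v) := by
        rw [← ENNReal.ofReal_mul (by positivity)]; congr 1; field_simp

theorem gauss_ball_ge {v : ℝ≥0} (hv1 : 1 ≤ (v : ℝ)) (hv4 : (v : ℝ) ≤ 4) (ε : ℝ) (hε : 0 ≤ ε)
    (hε1 : ε ≤ 1) : ENNReal.ofReal (ε / 6) ≤ gaussianReal 0 v {w | |w| ≤ ε} := by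
  have hv' : (0 : ℝ) < v := by linarith
  have hv : v ≠ 0 := by rintro rfl; simp at hv'
  have hset : {w : ℝ | |w| ≤ ε} = Icc (-ε) ε := by
    ext w; simp only [mem_ofPred_eq, mem_Icc, abs_le]
  rw [hset, gaussianReal_apply _ hv]
  have hb : ∀ x ∈ Icc (-ε) ε, ENNReal.ofReal (1 / 12) ≤ gaussianPDF 0 v x := by
    intro x hx
    unfold gaussianPDF gaussianPDFReal
    apply ENNReal.ofReal_le_ofReal
    have hx2 : x ^ 2 ≤ 1 := by
      have : |x| ≤ 1 := (abs_le.2 hx).trans hε1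
      nlinarith [abs_nonneg x, sq_abs x]
    have h1 : 1 / 2 ≤ Real.exp (-(x - 0) ^ 2 / (2 * v)) := by
      have h0 : -(1 / 2 : ℝ) ≤ -(x - 0) ^ 2 / (2 * v) := by
        rw [le_div_iff₀ (by positivity)]; nlinarith
      have := Real.add_one_le_exp (-(x - 0) ^ 2 / (2 * v))
      linarith
    have h2 : √(2 * Real.pi * v) ≤ 6 := by
      apply Real.sqrt_le_iff.2
      refine ⟨by norm_num, ?_⟩
      nlinarith [Real.pi_lt_four, Real.pi_pos]
    have h3 : (6 : ℝ)⁻¹ ≤ (√(2 * Real.pi * v))⁻¹ :=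
      inv_anti₀ (Real.sqrt_pos.2 (by positivity)) h2
    calc (1 / 12 : ℝ) = 6⁻¹ * (1 / 2) := by norm_num
      _ ≤ (√(2 * Real.pi * v))⁻¹ * Real.exp (-(x - 0) ^ 2 / (2 * v)) := by gcongr
  calc ENNReal.ofReal (ε / 6) = ENNReal.ofReal (1 / 12) * ENNReal.ofReal (2 * ε) := by
        rw [← ENNReal.ofReal_mul (by positivity)]; congr 1; ring
    _ = ∫⁻ _ in Icc (-ε) ε, ENNReal.ofReal (1 / 12) := by
        rw [setLIntegral_const, Real.volume_Icc]; congr 2; ring
    _ ≤ ∫⁻ x in Icc (-ε) ε, gaussianPDF 0 v x := setLIntegral_mono' measurableSet_Icc hb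

/-- law of a centred real Gaussian variable. -/
theorem map_eq_of_var {W : Ω → ℝ} (hW : HasGaussianLaw W P) (h0 : ∫ ω, W ω ∂P = 0) {v : ℝ}
    (hv : cov[W, W; P] = v) : P.map W = gaussianReal 0 v.toNNReal := by
  rw [hW.map_eq_gaussianReal, h0, ← covariance_self hW.aemeasurable, hv]

theorem gauss_tail {W : Ω → ℝ} (hW : HasGaussianLaw W P) (h0 : ∫ ω, W ω ∂P = 0) {v : ℝ}
    (hv0 : 0 < v) (hv : cov[W, W; P] ≤ v) {u : ℝ} (hu : 0 ≤ u) :
    P.real {ω | u ≤ |W ω|} ≤ 2 * Real.exp (-u ^ 2 / (2 * v)) := by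
  have := hW.isProbabilityMeasure
  have hmap := map_eq_of_var hW h0 rfl
  have hsub : HasSubgaussianMGF W v.toNNReal P := by
    constructor
    · intro t
      have h1 := integrable_exp_mul_gaussianReal (μ := 0) (v := (cov[W, W; P]).toNNReal) t
      rw [← hmap] at h1
      exact (integrable_map_measure (by fun_prop) hW.aemeasurable).1 h1
    · intro t
      rw [mgf_gaussianReal hmap]
      apply Real.exp_le_exp.2
      have : ((cov[W, W; P]).toNNReal : ℝ) ≤ (v.toNNReal : ℝ) := by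
        exact_mod_cast Real.toNNReal_le_toNNReal hv
      nlinarith [sq_nonneg t]
  have h1 := hsub.measure_ge_le hu
  have h2 := hsub.neg.measure_ge_le hu
  rw [Real.coe_toNNReal _ hv0.le] at h1 h2
  have hs : {ω | u ≤ |W ω|} ⊆ {ω | u ≤ W ω} ∪ {ω | u ≤ (-W) ω} := by
    intro ω hω
    simp only [mem_ofPred_eq, mem_union, Pi.neg_apply] at hω ⊢
    exact le_abs.1 hω
  calc P.real {ω | u ≤ |W ω|} ≤ P.real ({ω | u ≤ W ω} ∪ {ω | u ≤ (-W) ω}) :=
        measureReal_mono hs
    _ ≤ P.real {ω | u ≤ W ω} + P.real {ω | u ≤ (-W) ω} := measureReal_union_le _ _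
    _ ≤ _ := by linarith

theorem gauss4 {T S : Type*} {X : T → Ω → ℝ} (hX : IsGaussianProcess X P)
    (c1 c2 c3 c4 : S → ℝ) (p1 p2 p3 p4 : S → T) :
    IsGaussianProcess (fun s ω => c1 s * X (p1 s) ω + c2 s * X (p2 s) ω + c3 s * X (p3 s) ω +
      c4 s * X (p4 s) ω) P := by
  classical
  exact hX.of_isGaussianProcess fun s => ⟨{p1 s, p2 s, p3 s, p4 s},
    { toFun x := c1 s * x ⟨p1 s, by simp⟩ + c2 s * x ⟨p2 s, by simp⟩ + c3 s * x ⟨p3 s, by simp⟩ +
        c4 s * x ⟨p4 s, by simp⟩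
      map_add' x y := by simp; ring
      map_smul' c x := by simp; ring },
    by simp⟩

/-- abstract local nondeterminism step. -/
theorem lnd_abstract {T : Type*} {X : T → Ω → ℝ} (hX : IsGaussianProcess X P)
    (hm : ∀ p, Measurable (X p)) (S : Finset T) (q a b c : T) {v : ℝ} (hv : 0 < v)
    (h0 : ∫ ω, (X a ω - X b ω / 2 - X c ω / 2) ∂P = 0)
    (hW : cov[fun ω => X a ω - X b ω / 2 - X c ω / 2,
      fun ω => X a ω - X b ω / 2 - X c ω / 2; P] = v)
    (hq : cov[X q, fun ω => X a ω - X b ω / 2 - X c ω / 2; P] = v)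
    (hS : ∀ p ∈ S, cov[X p, fun ω => X a ω - X b ω / 2 - X c ω / 2; P] = 0)
    {ε : ℝ} (hε : 0 ≤ ε) :
    P.real ({ω | ∀ p ∈ S, |X p ω| ≤ ε} ∩ {ω | |X q ω| ≤ ε}) ≤
      ε / √v * P.real {ω | ∀ p ∈ S, |X p ω| ≤ ε} := by
  have := hX.isProbabilityMeasure
  set W : Ω → ℝ := fun ω => X a ω - X b ω / 2 - X c ω / 2 with hWdef
  let U : Option S → Ω → ℝ := fun o => match o with
    | none => fun ω => X q ω - W ω
    | some p => X p
  let V : Unit → Ω → ℝ := fun _ => W
  have hG : IsGaussianProcess (Sum.elim U V) P := by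
    have h4 := gauss4 (S := Option S ⊕ Unit) hX
      (Sum.elim (fun _ => 1) (fun _ => 0))
      (Sum.elim (fun o => o.elim (-1) (fun _ => 0)) (fun _ => 1))
      (Sum.elim (fun o => o.elim (1 / 2) (fun _ => 0)) (fun _ => -1 / 2))
      (Sum.elim (fun o => o.elim (1 / 2) (fun _ => 0)) (fun _ => -1 / 2))
      (Sum.elim (fun o => o.elim q (fun p => p)) (fun _ => q))
      (fun _ => a) (fun _ => b) (fun _ => c)
    convert h4 using 1
    funext s ω
    rcases s with (_ | p) | _ <;> simp [U, V, W] <;> ring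
  have hWm : Measurable W := by
    simp only [W]
    exact ((hm a).sub ((hm b).div_const 2)).sub ((hm c).div_const 2)
  have hUm : ∀ o, Measurable (U o) := by
    rintro (_ | p)
    · exact (hm q).sub hWm
    · exact hm p
  have hWG : HasGaussianLaw W P := hG.hasGaussianLaw_eval (Sum.inr ())
  have hL2 : ∀ p, MemLp (X p) 2 P := fun p => (hX.hasGaussianLaw_eval p).memLp_two
  have hind0 : IndepFun (fun ω o => U o ω) (fun ω t => V t ω) P := by
    refine hG.indepFun_of_covariance_eq_zero (fun o => (hUm o).aemeasurable)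
      (fun _ => hWm.aemeasurable) ?_
    rintro (_ | p) _
    · show cov[fun ω => X q ω - W ω, W; P] = 0
      rw [covariance_fun_sub_left (hL2 q) hWG.memLp_two hWG.memLp_two, hq, hW, sub_self]
    · exact hS p p.2
  have hind : IndepFun (fun ω o => U o ω) W P :=
    hind0.comp (φ := id) (ψ := fun f : Unit → ℝ => f ()) measurable_id (measurable_pi_apply _)
  have hUm' : Measurable (fun ω o => U o ω) := measurable_pi_lambda _ hUm
  rw [indepFun_iff_map_prod_eq_prod_map_map hUm'.aemeasurable hWm.aemeasurable] at hind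
  let A' : Set (Option S → ℝ) := {u | ∀ p : S, |u (some p)| ≤ ε}
  have hA' : MeasurableSet A' := by
    simp only [A', ofPred_forall]
    exact MeasurableSet.iInter fun p =>
      measurableSet_le (measurable_pi_apply (some p)).abs measurable_const
  let C : Set ((Option S → ℝ) × ℝ) := {z | z.1 ∈ A' ∧ |z.1 none + z.2| ≤ ε}
  have hC : MeasurableSet C := by
    refine (measurable_fst hA').inter ?_
    exact measurableSet_le
      (((measurable_pi_apply none).comp measurable_fst).add measurable_snd).abs measurable_const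
  have e1 : {ω | ∀ p ∈ S, |X p ω| ≤ ε} = (fun ω o => U o ω) ⁻¹' A' := by
    ext ω; simp [A', U]
  have e2 : {ω | ∀ p ∈ S, |X p ω| ≤ ε} ∩ {ω | |X q ω| ≤ ε} =
      (fun ω => ((fun o => U o ω), W ω)) ⁻¹' C := by
    ext ω; simp [A', C, U]
  have hlaw : P.map W = gaussianReal 0 v.toNNReal := map_eq_of_var hWG h0 hW
  have hv' : v.toNNReal ≠ 0 := by simpa using hv
  have key : P ((fun ω => ((fun o => U o ω), W ω)) ⁻¹' C) ≤
      ENNReal.ofReal (ε / √v) * P ((fun ω o => U o ω) ⁻¹' A') := by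
    rw [← Measure.map_apply (hUm'.prodMk hWm) hC, hind, Measure.prod_apply hC,
      ← Measure.map_apply hUm' hA', ← setLIntegral_const, ← lintegral_indicator hA']
    refine lintegral_mono fun u => ?_
    by_cases hu : u ∈ A'
    · rw [indicator_of_mem hu, hlaw]
      have := gauss_ball_le hv' (u none) ε hε
      rw [Real.coe_toNNReal _ hv.le] at this
      refine le_trans (measure_mono ?_) this
      intro w hw
      exact hw.2
    · have : Prod.mk u ⁻¹' C = ∅ := by
        ext w; simp [C, hu]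
      simp [this]
  rw [e2, e1]
  have h3 := ENNReal.toReal_mono (by finiteness) key
  rw [ENNReal.toReal_mul, ENNReal.toReal_ofReal (by positivity)] at h3
  exact h3

end Pool.Agent.MP_8eb1e4_pr.H39
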