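import Mathlib

/-!
Moments of counting variables, Markov and Paley-Zygmund inequalities, reverse Fatou.
-/

open MeasureTheory ProbabilityTheory Set Filter
open scoped NNReal ENNReal Topology

namespace Pool.Agent.MP_8eb1e4_pr.H39

variable {Ω : Type*} {ι : Type*}

/-- number of indices `q ∈ T` with `ω ∈ E q`, as a real number. -/
noncomputable def cnt (E : ι → Set Ω) (T : Finset ι) (ω : Ω) : ℝ :=
  ∑ q ∈ T, (E q).indicator (fun _ => (1 : ℝ)) ω

theorem ind_nonneg (A : Set Ω) (ω : Ω) : 0 ≤ A.indicator (fun _ => (1 : ℝ)) ω :=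
  indicator_nonneg (fun _ _ => zero_le_one) ω

theorem ind_le_one (A : Set Ω) (ω : Ω) : A.indicator (fun _ => (1 : ℝ)) ω ≤ 1 := by
  by_cases h : ω ∈ A <;> simp [h]

theorem cnt_nonneg (E : ι → Set Ω) (T : Finset ι) (ω : Ω) : 0 ≤ cnt E T ω :=
  Finset.sum_nonneg fun _ _ => ind_nonneg _ _

theorem cnt_le_card (E : ι → Set Ω) (T : Finset ι) (ω : Ω) : cnt E T ω ≤ T.card := by
  unfold cnt
  calc _ ≤ ∑ _q ∈ T, (1 : ℝ) := Finset.sum_le_sum fun q _ => ind_le_one _ _
    _ = _ := by simp

theorem cnt_mono (E : ι → Set Ω) {T T' : Finset ι} (h : T ⊆ T') (ω : Ω) :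
    cnt E T ω ≤ cnt E T' ω :=
  Finset.sum_le_sum_of_subset_of_nonneg h fun _ _ _ => ind_nonneg _ _

theorem measurable_cnt {m : MeasurableSpace Ω} (E : ι → Set Ω) (T : Finset ι)
    (hE : ∀ q ∈ T, MeasurableSet (E q)) : Measurable (cnt E T) :=
  Finset.measurable_sum _ fun q hq => measurable_const.indicator (hE q hq)

variable {mΩ : MeasurableSpace Ω} {P : Measure Ω} [IsProbabilityMeasure P]

theorem integrable_ind_mul_pow (E : ι → Set Ω) (T : Finset ι)
    (hE : ∀ q ∈ T, MeasurableSet (E q)) {A : Set Ω} (hA : MeasurableSet A) (k : ℕ) :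
    Integrable (fun ω => A.indicator (fun _ => (1 : ℝ)) ω * cnt E T ω ^ k) P := by
  refine Integrable.of_bound (C := (T.card : ℝ) ^ k) ?_ (Eventually.of_forall fun ω => ?_)
  · exact ((measurable_const.indicator hA).mul
      ((measurable_cnt E T hE).pow_const k)).aestronglyMeasurable
  · rw [Real.norm_eq_abs, abs_of_nonneg (mul_nonneg (ind_nonneg _ _)
      (pow_nonneg (cnt_nonneg _ _ _) _))]
    calc _ ≤ 1 * (T.card : ℝ) ^ k := by
          gcongr
          · exact pow_nonneg (cnt_nonneg _ _ _) _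
          · exact ind_le_one _ _
          · exact cnt_nonneg _ _ _
          · exact cnt_le_card _ _ _
      _ = _ := one_mul _

theorem integrable_cnt_pow (E : ι → Set Ω) (T : Finset ι)
    (hE : ∀ q ∈ T, MeasurableSet (E q)) (k : ℕ) :
    Integrable (fun ω => cnt E T ω ^ k) P := by
  simpa using integrable_ind_mul_pow (P := P) E T hE MeasurableSet.univ k

theorem moment_bound [DecidableEq ι] (E : ι → Set Ω) (G T : Finset ι) (hT : T ⊆ G)
    (hE : ∀ q ∈ G, MeasurableSet (E q)) (K : ℕ) {L : ℝ} (hL : 0 ≤ L)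
    (h : ∀ S ⊆ G, S.card < K →
      ∑ q ∈ T, P.real ((⋂ p ∈ S, E p) ∩ E q) ≤ L * P.real (⋂ p ∈ S, E p)) :
    ∫ ω, cnt E T ω ^ K ∂P ≤ L ^ K := by
  have hET : ∀ q ∈ T, MeasurableSet (E q) := fun q hq => hE q (hT hq)
  have hA : ∀ S ⊆ G, MeasurableSet (⋂ p ∈ S, E p) := fun S hS =>
    S.measurableSet_biInter fun p hp => hE p (hS hp)
  have key : ∀ k, ∀ S ⊆ G, S.card + k ≤ K →
      ∫ ω, (⋂ p ∈ S, E p).indicator (fun _ => (1 : ℝ)) ω * cnt E T ω ^ k ∂P ≤
        L ^ k * P.real (⋂ p ∈ S, E p) := by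
    intro k
    induction k with
    | zero =>
      intro S hS _
      simp only [pow_zero, mul_one, one_mul]
      rw [integral_indicator_const _ (hA S hS)]
      simp
    | succ k ih =>
      intro S hS hk
      have e : ∀ ω, (⋂ p ∈ S, E p).indicator (fun _ => (1 : ℝ)) ω * cnt E T ω ^ (k + 1) =
          ∑ q ∈ T, (⋂ p ∈ insert q S, E p).indicator (fun _ => (1 : ℝ)) ω * cnt E T ω ^ k := by
        intro ω
        rw [← Finset.sum_mul, pow_succ', ← mul_assoc]
        congr 1
        unfold cnt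
        rw [Finset.mul_sum]
        refine Finset.sum_congr rfl fun q _ => ?_
        rw [Finset.set_biInter_insert]
        by_cases h1 : ω ∈ ⋂ p ∈ S, E p <;> by_cases h2 : ω ∈ E q <;>
          simp only [indicator, mem_inter_iff, h1, h2] <;> simp
      simp_rw [e]
      have hins : ∀ q ∈ T, insert q S ⊆ G := fun q hq =>
        Finset.insert_subset (hT hq) hS
      rw [integral_finsetSum _ fun q hq =>
        integrable_ind_mul_pow E T hET (hA _ (hins q hq)) k]
      calc _ ≤ ∑ q ∈ T, L ^ k * P.real ((⋂ p ∈ S, E p) ∩ E q) := by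
            refine Finset.sum_le_sum fun q hq => ?_
            have := ih (insert q S) (hins q hq)
              (by have := Finset.card_insert_le q S; omega)
            rw [Finset.set_biInter_insert, inter_comm] at this
            rw [Finset.set_biInter_insert, inter_comm]
            exact this
        _ = L ^ k * ∑ q ∈ T, P.real ((⋂ p ∈ S, E p) ∩ E q) := by rw [Finset.mul_sum]
        _ ≤ L ^ k * (L * P.real (⋂ p ∈ S, E p)) :=
            mul_le_mul_of_nonneg_left (h S hS (by omega)) (pow_nonneg hL _)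
        _ = _ := by ring
  simpa using key K ∅ (Finset.empty_subset _) (by simp)

theorem markov_cnt (E : ι → Set Ω) (T : Finset ι) (hE : ∀ q ∈ T, MeasurableSet (E q))
    (K : ℕ) {L u : ℝ} (hu : 0 < u) (h : ∫ ω, cnt E T ω ^ K ∂P ≤ L ^ K) :
    P.real {ω | u ≤ cnt E T ω} ≤ (L / u) ^ K := by
  have h1 := mul_meas_ge_le_integral_of_nonneg (μ := P) (f := fun ω => cnt E T ω ^ K)
    (Eventually.of_forall fun ω => pow_nonneg (cnt_nonneg _ _ _) _)
    (integrable_cnt_pow E T hE K) (u ^ K)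
  have h2 : {ω | u ≤ cnt E T ω} ⊆ {ω | u ^ K ≤ cnt E T ω ^ K} := fun ω hω =>
    pow_le_pow_left₀ hu.le hω K
  rw [div_pow, le_div_iff₀ (pow_pos hu K), mul_comm]
  calc u ^ K * P.real {ω | u ≤ cnt E T ω} ≤ u ^ K * P.real {ω | u ^ K ≤ cnt E T ω ^ K} :=
        mul_le_mul_of_nonneg_left (measureReal_mono h2) (pow_pos hu K).le
    _ ≤ _ := h1.trans h

theorem integral_cnt (E : ι → Set Ω) (T : Finset ι) (hE : ∀ q ∈ T, MeasurableSet (E q)) :
    ∫ ω, cnt E T ω ∂P = ∑ q ∈ T, P.real (E q) := by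
  unfold cnt
  rw [integral_finsetSum _ fun q hq => (integrable_const _).indicator (hE q hq)]
  refine Finset.sum_congr rfl fun q hq => ?_
  rw [integral_indicator_const _ (hE q hq)]
  simp

theorem paley_zygmund_cnt (E : ι → Set Ω) (T : Finset ι) (hE : ∀ q ∈ T, MeasurableSet (E q))
    {c C m : ℝ} (hc : 0 < c) (hC : 0 < C) (hm : 0 < m) (h1 : c * m ≤ ∫ ω, cnt E T ω ∂P)
    (h2 : ∫ ω, cnt E T ω ^ 2 ∂P ≤ (C * m) ^ 2) :
    c ^ 2 / (4 * C ^ 2) ≤ P.real {ω | c * m / 2 ≤ cnt E T ω} := by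
  set A := {ω | c * m / 2 ≤ cnt E T ω} with hAdef
  have hA : MeasurableSet A := measurableSet_le measurable_const (measurable_cnt E T hE)
  set l := 2 * C ^ 2 * m / c with hl
  have hl0 : 0 < l := by positivity
  have hpt : ∀ ω, cnt E T ω ≤ c * m / 2 + (cnt E T ω ^ 2 / (2 * l) +
      l / 2 * A.indicator (fun _ => (1 : ℝ)) ω) := by
    intro ω
    by_cases h : ω ∈ A
    · rw [indicator_of_mem h]
      have : cnt E T ω ≤ cnt E T ω ^ 2 / (2 * l) + l / 2 * 1 := by
        rw [div_add' _ _ _ (by positivity), le_div_iff₀ (by positivity)]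
        nlinarith [sq_nonneg (cnt E T ω - l)]
      have : 0 < c * m / 2 := by positivity
      linarith
    · rw [indicator_of_notMem h]
      have h' : cnt E T ω < c * m / 2 := not_le.1 h
      have : 0 ≤ cnt E T ω ^ 2 / (2 * l) := by positivity
      linarith
  have i1 : Integrable (cnt E T) P := by simpa using integrable_cnt_pow (P := P) E T hE 1
  have i2 : Integrable (fun ω => cnt E T ω ^ 2 / (2 * l)) P :=
    (integrable_cnt_pow E T hE 2).div_const _
  have i3 : Integrable (fun ω => l / 2 * A.indicator (fun _ => (1 : ℝ)) ω) P :=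
    ((integrable_const _).indicator hA).const_mul _
  have i23 : Integrable (fun ω => cnt E T ω ^ 2 / (2 * l) +
      l / 2 * A.indicator (fun _ => (1 : ℝ)) ω) P := i2.add i3
  have i123 : Integrable (fun ω => c * m / 2 + (cnt E T ω ^ 2 / (2 * l) +
      l / 2 * A.indicator (fun _ => (1 : ℝ)) ω)) P := (integrable_const (c * m / 2)).add i23
  have h3 := integral_mono i1 i123 hpt
  have h4 : ∫ ω, (c * m / 2 + (cnt E T ω ^ 2 / (2 * l) +
      l / 2 * A.indicator (fun _ => (1 : ℝ)) ω)) ∂P =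
      c * m / 2 + ((∫ ω, cnt E T ω ^ 2 ∂P) / (2 * l) + l / 2 * P.real A) := by
    rw [integral_add (integrable_const _) i23, integral_add i2 i3, integral_const,
      integral_div, integral_const_mul, integral_indicator_const _ hA]
    simp
  rw [h4] at h3
  have h5 : (∫ ω, cnt E T ω ^ 2 ∂P) / (2 * l) ≤ c * m / 4 := by
    rw [div_le_iff₀ (by positivity)]
    refine h2.trans (le_of_eq ?_)
    rw [hl]; field_simp; ring
  have h6 : c * m / 4 ≤ l / 2 * P.real A := by linarith
  rw [div_le_iff₀ (by positivity)]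
  have h7 : l / 2 * P.real A * (4 * c / m) = P.real A * (4 * C ^ 2) := by
    rw [hl]; field_simp
  have h8 : c * m / 4 * (4 * c / m) = c ^ 2 := by field_simp
  rw [← h7, ← h8]
  exact mul_le_mul_of_nonneg_right h6 (by positivity)

theorem le_measureReal_frequently {A : ℕ → Set Ω} (hA : ∀ n, MeasurableSet (A n)) {p : ℝ}
    (h : ∀ n, p ≤ P.real (A n)) : p ≤ P.real {ω | ∃ᶠ n in atTop, ω ∈ A n} := by
  have e : {ω | ∃ᶠ n in atTop, ω ∈ A n} = ⋂ m, ⋃ n ≥ m, A n := by
    ext ω; simp [frequently_atTop]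
  rw [e]
  have hanti : Antitone fun m => ⋃ n ≥ m, A n := fun a b hab =>
    biUnion_subset_biUnion_left fun n (hn : b ≤ n) => le_trans hab hn
  have ht := tendsto_measure_iInter_atTop (μ := P)
    (fun m => (MeasurableSet.biUnion (to_countable _) fun n _ => hA n).nullMeasurableSet) hanti
    ⟨0, measure_ne_top _ _⟩
  have ht' := (ENNReal.tendsto_toReal (measure_ne_top P _)).comp ht
  refine ge_of_tendsto' ht' fun m => ?_
  exact (h m).trans (measureReal_mono (subset_biUnion_of_mem (u := A) (le_refl m))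
    (measure_ne_top _ _))

end Pool.Agent.MP_8eb1e4_pr.H39
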