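import Pool.Agent.MP_8eb1e4_pr.H39.Sheet
import Pool.Agent.MP_8eb1e4_pr.H39.Moment

/-!
Lattice sums and the moment bound for the number of near-zeros of the sheet in a set of grid
points with short rows.
-/

open MeasureTheory ProbabilityTheory Set Filter
open scoped NNReal ENNReal Topology

namespace Pool.Agent.MP_8eb1e4_pr.H39

theorem sum_range_rpow {a : ℝ} (ha0 : 0 ≤ a) (ha1 : a < 1) (n : ℕ) :
    ∑ k ∈ Finset.range n, (1 + (k : ℝ)) ^ (-a) ≤ (n : ℝ) ^ (1 - a) / (1 - a) := by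
  have h1a : 0 < 1 - a := by linarith
  induction n with
  | zero => simp; positivity
  | succ n ih =>
    rw [Finset.sum_range_succ]
    have hn : (0 : ℝ) < 1 + n := by positivity
    have hB := rpow_one_add_le_one_add_mul_self (s := -(1 / (1 + (n : ℝ)))) (p := 1 - a)
      (by
        have : 1 / (1 + (n : ℝ)) ≤ 1 := by
          rw [div_le_one hn]; linarith [Nat.cast_nonneg (α := ℝ) n]
        linarith) h1a.le (by linarith)
    have e1 : 1 + -(1 / (1 + (n : ℝ))) = n / (1 + n) := by field_simp; ring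
    rw [e1, Real.div_rpow (Nat.cast_nonneg n) hn.le, div_le_iff₀ (Real.rpow_pos_of_pos hn _)] at hB
    have e2 : (1 + (n : ℝ)) ^ (1 - a) = (1 + (n : ℝ)) * (1 + (n : ℝ)) ^ (-a) := by
      rw [sub_eq_add_neg, Real.rpow_add hn, Real.rpow_one]
    have e3 : (1 + (1 - a) * -(1 / (1 + (n : ℝ)))) * (1 + (n : ℝ)) ^ (1 - a) =
        (1 + (n : ℝ)) ^ (1 - a) - (1 - a) * (1 + (n : ℝ)) ^ (-a) := by
      rw [e2]; field_simp; ring
    rw [e3] at hB
    rw [le_div_iff₀ h1a] at ih ⊢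
    push_cast
    rw [add_comm (n : ℝ) 1]
    nlinarith

theorem sum_le_sum_range_of_antitone {f : ℕ → ℝ} (hf : Antitone f) (J : Finset ℕ) :
    ∑ m ∈ J, f m ≤ ∑ k ∈ Finset.range J.card, f k := by
  induction J using Finset.induction_on_max with
  | empty => simp
  | insert m J hm ih =>
    have hmJ : m ∉ J := fun h => lt_irrefl _ (hm m h)
    rw [Finset.sum_insert hmJ, Finset.card_insert_of_notMem hmJ, Finset.sum_range_succ]
    have hc : J.card ≤ m := by
      have : J ⊆ Finset.range m := fun x hx => Finset.mem_range.2 (hm x hx)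
      simpa using Finset.card_le_card this
    have := hf hc
    linarith

theorem sum_nat_rpow {a : ℝ} (ha0 : 0 ≤ a) (ha1 : a < 1) (J : Finset ℕ) {W : ℝ}
    (hW : (J.card : ℝ) ≤ W) :
    ∑ m ∈ J, (1 + (m : ℝ)) ^ (-a) ≤ W ^ (1 - a) / (1 - a) := by
  have hf : Antitone fun m : ℕ => (1 + (m : ℝ)) ^ (-a) := by
    intro x y hxy
    apply Real.rpow_le_rpow_of_nonpos (by positivity) _ (by linarith)
    have : (x : ℝ) ≤ y := by exact_mod_cast hxy
    linarith
  refine (sum_le_sum_range_of_antitone hf J).trans ((sum_range_rpow ha0 ha1 _).trans ?_)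
  have h1a : 0 < 1 - a := by linarith
  gcongr

theorem sum_dist_rpow {a : ℝ} (ha0 : 0 ≤ a) (ha1 : a < 1) (I : Finset ℕ) (c : ℕ) {W : ℝ}
    (hW : (I.card : ℝ) ≤ W) :
    ∑ i ∈ I, (1 + |(c : ℝ) - i|) ^ (-a) ≤ 2 * W ^ (1 - a) / (1 - a) := by
  classical
  rw [← Finset.sum_filter_add_sum_filter_not I (fun i => c ≤ i)]
  have h1 : ∑ i ∈ I.filter (fun i => c ≤ i), (1 + |(c : ℝ) - i|) ^ (-a) ≤
      W ^ (1 - a) / (1 - a) := by
    have hinj : Set.InjOn (fun i => i - c) (I.filter (fun i => c ≤ i)) := by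
      intro x hx y hy hxy
      simp only [Finset.coe_filter, mem_ofPred_eq] at hx hy
      simp only at hxy
      omega
    have := sum_nat_rpow ha0 ha1 ((I.filter (fun i => c ≤ i)).image (fun i => i - c)) (W := W)
      (le_trans (by exact_mod_cast Finset.card_image_le.trans (Finset.card_filter_le _ _)) hW)
    rw [Finset.sum_image hinj] at this
    refine le_trans (le_of_eq (Finset.sum_congr rfl fun i hi => ?_)) this
    have hi' := (Finset.mem_filter.1 hi).2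
    rw [Nat.cast_sub hi', abs_sub_comm, abs_of_nonneg]
    have : (c : ℝ) ≤ i := by exact_mod_cast hi'
    linarith
  have h2 : ∑ i ∈ I.filter (fun i => ¬ c ≤ i), (1 + |(c : ℝ) - i|) ^ (-a) ≤
      W ^ (1 - a) / (1 - a) := by
    have hinj : Set.InjOn (fun i => c - i) (I.filter (fun i => ¬ c ≤ i)) := by
      intro x hx y hy hxy
      simp only [Finset.coe_filter, mem_ofPred_eq] at hx hy
      simp only at hxy
      omega
    have := sum_nat_rpow ha0 ha1 ((I.filter (fun i => ¬ c ≤ i)).image (fun i => c - i)) (W := W)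
      (le_trans (by exact_mod_cast Finset.card_image_le.trans (Finset.card_filter_le _ _)) hW)
    rw [Finset.sum_image hinj] at this
    refine le_trans (le_of_eq (Finset.sum_congr rfl fun i hi => ?_)) this
    have hi' : i ≤ c := by have := (Finset.mem_filter.1 hi).2; omega
    rw [Nat.cast_sub hi', abs_of_nonneg]
    have : (i : ℝ) ≤ c := by exact_mod_cast hi'
    linarith
  have : 2 * W ^ (1 - a) / (1 - a) = W ^ (1 - a) / (1 - a) + W ^ (1 - a) / (1 - a) := by ring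
  linarith

variable {Ω : Type*} {mΩ : MeasurableSpace Ω} {P : Measure Ω}
variable {d : ℕ} {X : (ℝ × ℝ) × Fin d → Ω → ℝ}

theorem Sheet.lnd_dir (hX : Sheet d P X) {ι : Type*} (pt : ι → ℝ × ℝ) (S : Finset ι)
    (hS0 : ∀ i ∈ S, 0 ≤ (pt i).1 ∧ 0 ≤ (pt i).2) (x : ℝ × ℝ) (ht : 1 ≤ x.2) {N ρ : ℝ}
    (hN : 0 < N) (hρ : ρ = 0 ∨ 1 ≤ ρ) (hrs : ρ / N ≤ x.1)
    (hS : ∀ i ∈ S, ρ / N ≤ |(pt i).1 - x.1|) :
    P.real ((⋂ i ∈ S, small X (√N)⁻¹ (pt i)) ∩ small X (√N)⁻¹ x) ≤
      2 ^ d * (1 + ρ) ^ (-((d : ℝ) / 2)) * P.real (⋂ i ∈ S, small X (√N)⁻¹ (pt i)) := by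
  have := hX.gauss.isProbabilityMeasure
  rcases hρ with rfl | hρ
  · simp only [add_zero, Real.one_rpow, mul_one]
    calc _ ≤ 1 * P.real (⋂ i ∈ S, small X (√N)⁻¹ (pt i)) := by
          rw [one_mul]; exact measureReal_mono inter_subset_left
      _ ≤ _ := mul_le_mul_of_nonneg_right (one_le_pow₀ (by norm_num)) measureReal_nonneg
  · refine (hX.lnd_vec pt S hS0 x ht (by positivity) hrs hS (by positivity)).trans ?_
    refine mul_le_mul_of_nonneg_right ?_ measureReal_nonneg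
    have e : (1 + ρ) ^ (-((d : ℝ) / 2)) = ((√(1 + ρ))⁻¹) ^ d := by
      rw [Real.sqrt_eq_rpow, ← Real.rpow_neg (by positivity), ← Real.rpow_natCast,
        ← Real.rpow_mul (by positivity)]
      congr 1; ring
    rw [e, ← mul_pow]
    apply pow_le_pow_left₀ (by positivity)
    have h1 : √N * √(ρ / N / 2) = √(ρ / 2) := by
      rw [← Real.sqrt_mul hN.le]; congr 1; field_simp
    have h2 : √(1 + ρ) ≤ 2 * √(ρ / 2) := by
      apply Real.sqrt_le_iff.2
      refine ⟨by positivity, ?_⟩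
      rw [mul_pow, Real.sq_sqrt (by positivity)]; linarith
    have h3 : 0 < √(ρ / 2) := Real.sqrt_pos.2 (by positivity)
    have h4 : 0 < √(1 + ρ) := Real.sqrt_pos.2 (by positivity)
    rw [div_eq_mul_inv, ← mul_inv, h1, ← div_eq_mul_inv, le_div_iff₀ h4, inv_mul_le_iff₀ h3]
    linarith

/-- grid indices of the box `[1,2)²` at resolution `N`. -/
def grid (N : ℕ) : Finset (ℕ × ℕ) := Finset.Ico N (2 * N) ×ˢ Finset.Ico N (2 * N)

/-- the grid point with index `q`. -/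
noncomputable def gpt (N : ℕ) (q : ℕ × ℕ) : ℝ × ℝ := ((q.1 : ℝ) / N, (q.2 : ℝ) / N)

/-- near-zero event at a grid point. -/
def ev (X : (ℝ × ℝ) × Fin d → Ω → ℝ) (N : ℕ) (q : ℕ × ℕ) : Set Ω :=
  small X (√(N : ℝ))⁻¹ (gpt N q)

theorem gpt_mem {N : ℕ} (hN : 0 < N) {q : ℕ × ℕ} (hq : q ∈ grid N) :
    1 ≤ (gpt N q).1 ∧ (gpt N q).1 ≤ 2 ∧ 1 ≤ (gpt N q).2 ∧ (gpt N q).2 ≤ 2 := by
  simp only [grid, Finset.mem_product, Finset.mem_Ico] at hq
  have hN' : (0 : ℝ) < N := by exact_mod_cast hN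
  simp only [gpt, le_div_iff₀ hN', div_le_iff₀ hN', one_mul]
  refine ⟨by exact_mod_cast hq.1.1, by exact_mod_cast hq.1.2.le, by exact_mod_cast hq.2.1,
    by exact_mod_cast hq.2.2.le⟩

theorem abs_nat_sub (x y : ℕ) : |(x : ℝ) - y| = 0 ∨ 1 ≤ |(x : ℝ) - y| := by
  by_cases h : x = y
  · left; simp [h]
  · right
    have : (1 : ℤ) ≤ |(x : ℤ) - y| := Int.one_le_abs (by omega)
    exact_mod_cast this

theorem Sheet.lnd_grid (hX : Sheet d P X) {N : ℕ} (hN : 0 < N) {a b : ℝ} (ha : 0 ≤ a)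
    (hb : 0 ≤ b) (hab : a + b = (d : ℝ) / 2) (S : Finset (ℕ × ℕ)) (q : ℕ × ℕ)
    (hq : q ∈ grid N) :
    P.real ((⋂ p ∈ S, ev X N p) ∩ ev X N q) ≤
      2 ^ d * ((∑ p ∈ insert (0, 0) S, (1 + |(p.1 : ℝ) - q.1|) ^ (-a)) *
        (∑ p ∈ insert (0, 0) S, (1 + |(p.2 : ℝ) - q.2|) ^ (-b))) *
          P.real (⋂ p ∈ S, ev X N p) := by
  classical
  have hN' : (0 : ℝ) < N := by exact_mod_cast hN
  obtain ⟨h1, -, h3, -⟩ := gpt_mem hN hq
  obtain ⟨p1, hp1, hm1⟩ := Finset.exists_min_image (insert (0, 0) S)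
    (fun p : ℕ × ℕ => |(p.1 : ℝ) - q.1|) (Finset.insert_nonempty _ _)
  obtain ⟨p2, hp2, hm2⟩ := Finset.exists_min_image (insert (0, 0) S)
    (fun p : ℕ × ℕ => |(p.2 : ℝ) - q.2|) (Finset.insert_nonempty _ _)
  set ρ1 := |(p1.1 : ℝ) - q.1| with hρ1
  set ρ2 := |(p2.2 : ℝ) - q.2| with hρ2
  have r1 : 0 ≤ ρ1 := abs_nonneg _
  have r2 : 0 ≤ ρ2 := abs_nonneg _
  have c1 := hX.lnd_dir (gpt N) S (fun i _ => by simp only [gpt]; constructor <;> positivity)
    (gpt N q) h3 hN' (ρ := ρ1) (abs_nat_sub _ _)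
    (by
      have := hm1 (0, 0) (Finset.mem_insert_self _ _)
      simp only [Nat.cast_zero, zero_sub, abs_neg, Nat.abs_cast] at this
      simp only [gpt]; gcongr)
    (by
      intro i hi
      have := hm1 i (Finset.mem_insert_of_mem hi)
      simp only [gpt]
      rw [← sub_div, abs_div, abs_of_pos hN']; gcongr)
  have c2 := hX.swap.lnd_dir (fun i => (gpt N i).swap) S
    (fun i _ => by simp only [gpt, Prod.swap]; constructor <;> positivity)
    (gpt N q).swap h1 hN' (ρ := ρ2) (abs_nat_sub _ _)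
    (by
      have := hm2 (0, 0) (Finset.mem_insert_self _ _)
      simp only [Nat.cast_zero, zero_sub, abs_neg, Nat.abs_cast] at this
      simp only [gpt, Prod.swap]; gcongr)
    (by
      intro i hi
      have := hm2 i (Finset.mem_insert_of_mem hi)
      simp only [gpt, Prod.swap]
      rw [← sub_div, abs_div, abs_of_pos hN']; gcongr)
  have s1 : (1 + ρ1) ^ (-a) ≤ ∑ p ∈ insert (0, 0) S, (1 + |(p.1 : ℝ) - q.1|) ^ (-a) :=
    Finset.single_le_sum (f := fun p : ℕ × ℕ => (1 + |(p.1 : ℝ) - q.1|) ^ (-a))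
      (fun p _ => by positivity) hp1
  have s2 : (1 + ρ2) ^ (-b) ≤ ∑ p ∈ insert (0, 0) S, (1 + |(p.2 : ℝ) - q.2|) ^ (-b) :=
    Finset.single_le_sum (f := fun p : ℕ × ℕ => (1 + |(p.2 : ℝ) - q.2|) ^ (-b))
      (fun p _ => by positivity) hp2
  have hprod : (1 + ρ1) ^ (-a) * (1 + ρ2) ^ (-b) ≤
      (∑ p ∈ insert (0, 0) S, (1 + |(p.1 : ℝ) - q.1|) ^ (-a)) *
        (∑ p ∈ insert (0, 0) S, (1 + |(p.2 : ℝ) - q.2|) ^ (-b)) :=
    mul_le_mul s1 s2 (by positivity) ((by positivity : (0 : ℝ) ≤ _).trans s1)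
  have hsplit : ∀ ρ : ℝ, 0 ≤ ρ → (1 + ρ) ^ (-((d : ℝ) / 2)) = (1 + ρ) ^ (-a) * (1 + ρ) ^ (-b) := by
    intro ρ hρ
    rw [← Real.rpow_add (by positivity), ← hab]; congr 1; ring
  rcases le_total ρ1 ρ2 with h | h
  · refine le_trans c2 (mul_le_mul_of_nonneg_right
      (mul_le_mul_of_nonneg_left (le_trans ?_ hprod) (by positivity)) measureReal_nonneg)
    rw [hsplit _ r2]
    exact mul_le_mul_of_nonneg_right
      (Real.rpow_le_rpow_of_nonpos (by positivity) (by linarith) (by linarith)) (by positivity)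
  · refine le_trans c1 (mul_le_mul_of_nonneg_right
      (mul_le_mul_of_nonneg_left (le_trans ?_ hprod) (by positivity)) measureReal_nonneg)
    rw [hsplit _ r1]
    exact mul_le_mul_of_nonneg_left
      (Real.rpow_le_rpow_of_nonpos (by positivity) (by linarith) (by linarith)) (by positivity)

theorem Sheet.measurableSet_ev (hX : Sheet d P X) (N : ℕ) (q : ℕ × ℕ) :
    MeasurableSet (ev X N q) := measurableSet_small fun _ => hX.meas _

/-- moment bound for a set of grid points all of whose rows have at most `W` points. -/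
theorem Sheet.moment_rows (hX : Sheet d P X) {N : ℕ} (hN : 0 < N) {a b : ℝ} (ha : 0 ≤ a)
    (hb : 0 ≤ b) (ha1 : a < 1) (hb1 : b < 1) (hab : a + b = (d : ℝ) / 2) (T : Finset (ℕ × ℕ))
    (hT : T ⊆ grid N) {W : ℝ}
    (hW : ∀ j, (((Finset.Ico N (2 * N)).filter (fun i => (i, j) ∈ T)).card : ℝ) ≤ W) (K : ℕ) :
    ∫ ω, cnt (ev X N) T ω ^ K ∂P ≤
      (2 ^ d * K ^ 2 * (2 * W ^ (1 - a) / (1 - a) * (2 * (N : ℝ) ^ (1 - b) / (1 - b)))) ^ K := by
  classical
  have := hX.gauss.isProbabilityMeasure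
  have h1a : 0 < 1 - a := by linarith
  have h1b : 0 < 1 - b := by linarith
  have hW0 : 0 ≤ W := le_trans (Nat.cast_nonneg _) (hW 0)
  refine moment_bound (ev X N) (grid N) T hT (fun q _ => hX.measurableSet_ev N q) K
    (by positivity) fun S hS hK => ?_
  have hin : ∀ p p' : ℕ × ℕ,
      ∑ q ∈ T, (1 + |(p.1 : ℝ) - q.1|) ^ (-a) * (1 + |(p'.2 : ℝ) - q.2|) ^ (-b) ≤
        2 * W ^ (1 - a) / (1 - a) * (2 * (N : ℝ) ^ (1 - b) / (1 - b)) := by
    intro p p'
    have e : T = (grid N).filter (fun q => q ∈ T) := by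
      ext q; simp only [Finset.mem_filter]; exact ⟨fun h => ⟨hT h, h⟩, fun h => h.2⟩
    rw [e, Finset.sum_filter, grid, Finset.sum_product_right]
    calc _ = ∑ j ∈ Finset.Ico N (2 * N),
          (∑ i ∈ (Finset.Ico N (2 * N)).filter (fun i => (i, j) ∈ T),
            (1 + |(p.1 : ℝ) - i|) ^ (-a)) * (1 + |(p'.2 : ℝ) - j|) ^ (-b) := by
          refine Finset.sum_congr rfl fun j _ => ?_
          rw [Finset.sum_mul, Finset.sum_filter]
      _ ≤ ∑ j ∈ Finset.Ico N (2 * N), 2 * W ^ (1 - a) / (1 - a) * (1 + |(p'.2 : ℝ) - j|) ^ (-b) :=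
          Finset.sum_le_sum fun j _ => mul_le_mul_of_nonneg_right
            (sum_dist_rpow ha ha1 _ _ (hW j)) (by positivity)
      _ ≤ _ := by
          rw [← Finset.mul_sum]
          refine mul_le_mul_of_nonneg_left (sum_dist_rpow hb hb1 _ _ ?_) (by positivity)
          rw [Nat.card_Ico]
          exact_mod_cast (by omega : 2 * N - N ≤ N)
  have hcard : ((insert (0, 0) S).card : ℝ) ≤ K := by
    have := Finset.card_insert_le (0, 0) S
    exact_mod_cast (by omega : (insert (0, 0) S).card ≤ K)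
  calc _ ≤ ∑ q ∈ T, 2 ^ d * ((∑ p ∈ insert (0, 0) S, (1 + |(p.1 : ℝ) - q.1|) ^ (-a)) *
        (∑ p ∈ insert (0, 0) S, (1 + |(p.2 : ℝ) - q.2|) ^ (-b))) *
          P.real (⋂ p ∈ S, ev X N p) :=
        Finset.sum_le_sum fun q hq => hX.lnd_grid hN ha hb hab S q (hT hq)
    _ = 2 ^ d * (∑ p ∈ insert (0, 0) S, ∑ p' ∈ insert (0, 0) S, ∑ q ∈ T,
          (1 + |(p.1 : ℝ) - q.1|) ^ (-a) * (1 + |(p'.2 : ℝ) - q.2|) ^ (-b)) *
          P.real (⋂ p ∈ S, ev X N p) := by
        rw [← Finset.sum_mul, ← Finset.mul_sum]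
        congr 2
        simp_rw [Finset.sum_mul_sum]
        rw [Finset.sum_comm]
        refine Finset.sum_congr rfl fun p _ => ?_
        rw [Finset.sum_comm]
    _ ≤ _ := by
        refine mul_le_mul_of_nonneg_right ?_ measureReal_nonneg
        rw [mul_assoc]
        refine mul_le_mul_of_nonneg_left ?_ (by positivity)
        calc _ ≤ ∑ _p ∈ insert (0, 0) S, ∑ _p' ∈ insert (0, 0) S,
              2 * W ^ (1 - a) / (1 - a) * (2 * (N : ℝ) ^ (1 - b) / (1 - b)) :=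
              Finset.sum_le_sum fun p _ => Finset.sum_le_sum fun p' _ => hin p p'
          _ = ((insert (0, 0) S).card : ℝ) ^ 2 *
              (2 * W ^ (1 - a) / (1 - a) * (2 * (N : ℝ) ^ (1 - b) / (1 - b))) := by
              simp only [Finset.sum_const, nsmul_eq_mul]; ring
          _ ≤ _ := by gcongr

end Pool.Agent.MP_8eb1e4_pr.H39
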