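import Pool.Agent.MP_8eb1e4_pr.H39.Sheet

/-!
The germ sigma-field of the sheet at the axis `s = 0` is trivial.
-/

open MeasureTheory ProbabilityTheory Set Filter
open scoped NNReal ENNReal Topology BoundedContinuousFunction

namespace Pool.Agent.MP_8eb1e4_pr.H39

variable {Ω : Type*} {d : ℕ}

/-- sigma-field generated by the values of `X` at points with `0 ≤ s ≤ δ`, `0 ≤ t`. -/
@[reducible] def germ (X : (ℝ × ℝ) × Fin d → Ω → ℝ) (δ : ℝ) : MeasurableSpace Ω :=
  MeasurableSpace.pi.comap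
    (fun ω (p : {p : (ℝ × ℝ) × Fin d // 0 ≤ p.1.1 ∧ p.1.1 ≤ δ ∧ 0 ≤ p.1.2}) => X p ω)

theorem measurable_comap_eval {S : Type*} (Y : S → Ω → ℝ) (s : S) :
    Measurable[MeasurableSpace.pi.comap (fun ω s => Y s ω)] (Y s) :=
  @Measurable.comp Ω (S → ℝ) ℝ (MeasurableSpace.pi.comap (fun ω s => Y s ω)) _ _
    (fun u => u s) (fun ω s => Y s ω) (measurable_pi_apply s) (comap_measurable _)

theorem measurable_germ (X : (ℝ × ℝ) × Fin d → Ω → ℝ) (δ : ℝ) (p : (ℝ × ℝ) × Fin d)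
    (h1 : 0 ≤ p.1.1) (h2 : p.1.1 ≤ δ) (h3 : 0 ≤ p.1.2) : Measurable[germ X δ] (X p) :=
  measurable_comap_eval
    (fun p : {p : (ℝ × ℝ) × Fin d // 0 ≤ p.1.1 ∧ p.1.1 ≤ δ ∧ 0 ≤ p.1.2} => X p) ⟨p, h1, h2, h3⟩

theorem germ_le (X : (ℝ × ℝ) × Fin d → Ω → ℝ) (δ : ℝ) {m : MeasurableSpace Ω}
    (h : ∀ p : (ℝ × ℝ) × Fin d, 0 ≤ p.1.1 → p.1.1 ≤ δ → 0 ≤ p.1.2 → Measurable[m] (X p)) :
    germ X δ ≤ m :=
  Measurable.comap_le (measurable_pi_lambda _ fun p => h p p.2.1 p.2.2.1 p.2.2.2)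

variable {mΩ : MeasurableSpace Ω} {P : Measure Ω} {X : (ℝ × ℝ) × Fin d → Ω → ℝ}

theorem Sheet.ae_zero (hX : Sheet d P X) {t : ℝ} (ht : 0 ≤ t) (c : Fin d) :
    ∀ᵐ ω ∂P, X ((0, t), c) ω = 0 := by
  have hv : cov[X ((0, t), c), X ((0, t), c); P] = 0 := by
    rw [hX.cov _ _ le_rfl ht le_rfl ht]; simp
  have hmap := map_eq_of_var (hX.gauss.hasGaussianLaw_eval _) (hX.mean _) hv
  rw [Real.toNNReal_zero, gaussianReal_zero_var] at hmap
  have : HasLaw (X ((0, t), c)) (Measure.dirac 0) P := ⟨(hX.meas _).aemeasurable, hmap⟩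
  exact this.ae_eq_of_dirac

theorem Sheet.indep_germ (hX : Sheet d P X) {δ : ℝ} (hδ : 0 ≤ δ) :
    IndepFun
      (fun ω (p : {p : (ℝ × ℝ) × Fin d // 0 ≤ p.1.1 ∧ p.1.1 ≤ δ ∧ 0 ≤ p.1.2}) => X p ω)
      (fun ω (q : {p : (ℝ × ℝ) × Fin d // 0 ≤ p.1.1 ∧ 0 ≤ p.1.2}) =>
        X q ω - X ((min q.1.1.1 δ, q.1.1.2), q.1.2) ω) P := by
  have := hX.gauss.isProbabilityMeasure
  refine IsGaussianProcess.indepFun_of_covariance_eq_zero
    (X := fun (p : {p : (ℝ × ℝ) × Fin d // 0 ≤ p.1.1 ∧ p.1.1 ≤ δ ∧ 0 ≤ p.1.2}) => X p)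
    (Y := fun (q : {p : (ℝ × ℝ) × Fin d // 0 ≤ p.1.1 ∧ 0 ≤ p.1.2}) ω =>
        X q ω - X ((min q.1.1.1 δ, q.1.1.2), q.1.2) ω) ?_
    (fun p => (hX.meas _).aemeasurable)
    (fun q => ((hX.meas _).sub (hX.meas _)).aemeasurable) ?_
  · have h4 := gauss4 (S := {p : (ℝ × ℝ) × Fin d // 0 ≤ p.1.1 ∧ p.1.1 ≤ δ ∧ 0 ≤ p.1.2} ⊕
        {p : (ℝ × ℝ) × Fin d // 0 ≤ p.1.1 ∧ 0 ≤ p.1.2}) hX.gauss
      (fun _ => 1) (Sum.elim (fun _ => 0) (fun _ => -1)) (fun _ => 0) (fun _ => 0)
      (Sum.elim (fun p => p.1) (fun q => q.1))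
      (Sum.elim (fun p => p.1) (fun q => ((min q.1.1.1 δ, q.1.1.2), q.1.2)))
      (Sum.elim (fun p => p.1) (fun q => q.1)) (Sum.elim (fun p => p.1) (fun q => q.1))
    convert h4 using 1
    funext s ω
    rcases s with p | q <;> simp
    ring
  · rintro ⟨p, h1, h2, h3⟩ ⟨q, h4, h5⟩
    rw [covariance_fun_sub_right (hX.memLp _) (hX.memLp _) (hX.memLp _),
      hX.cov p q h1 h3 h4 h5, hX.cov p ((min q.1.1 δ, q.1.2), q.2) h1 h3 (le_min h4 hδ) h5]
    simp only
    split_ifs with h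
    · rw [← min_assoc, min_eq_left ((min_le_left _ _).trans h2), sub_self]
    · simp

theorem Sheet.zero_one (hX : Sheet d P X) (δ : ℕ → ℝ) (hδ0 : ∀ n, 0 ≤ δ n)
    (hδ : Tendsto δ atTop (𝓝 0)) {A : Set Ω} (hA : ∀ n, MeasurableSet[germ X (δ n)] A) :
    P A = 0 ∨ P A = 1 := by
  have := hX.gauss.isProbabilityMeasure
  have hAm : MeasurableSet A := germ_le X (δ 0) (fun p _ _ _ => hX.meas p) A (hA 0)
  let S := {p : (ℝ × ℝ) × Fin d // 0 ≤ p.1.1 ∧ 0 ≤ p.1.2}
  let Y : ℕ → S → Ω → ℝ := fun n q ω => X q ω - X ((min q.1.1.1 (δ n), q.1.1.2), q.1.2) ω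
  have hYm : ∀ n q, Measurable (Y n q) := fun n q => (hX.meas _).sub (hX.meas _)
  have hind : IndepFun (A.indicator (1 : Ω → ℝ)) (fun ω (q : S) => X q ω) P := by
    refine indicator_indepFun_process_of_bcf (X := fun q : S => X q) hAm.nullMeasurableSet
      (fun q => (hX.meas _).aemeasurable) fun I f => ?_
    have hn : ∀ n, ∫ ω in A, f (fun q : I => Y n q ω) ∂P =
        P.real A * ∫ ω, f (fun q : I => Y n q ω) ∂P := by
      intro n
      have h1 : IndepFun (A.indicator (1 : Ω → ℝ)) (fun ω (q : S) => Y n q ω) P := by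
        have h0 := hX.indep_germ (hδ0 n)
        rw [IndepFun_iff_Indep] at h0 ⊢
        refine indep_of_indep_of_le_left h0 ?_
        have h5 : Measurable[germ X (δ n)] (A.indicator (1 : Ω → ℝ)) :=
          Measurable.indicator (m := germ X (δ n)) measurable_const (hA n)
        exact h5.comap_le
      have h2 : IndepFun (A.indicator (1 : Ω → ℝ)) (fun ω => f (fun q : I => Y n q ω)) P :=
        h1.comp (φ := id) (ψ := fun u : S → ℝ => f (fun q : I => u q)) measurable_id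
          (f.continuous.measurable.comp (measurable_pi_lambda _ fun q => measurable_pi_apply _))
      have h3 := h2.integral_fun_mul_eq_mul_integral
        (measurable_one.indicator hAm).aestronglyMeasurable
        (f.continuous.measurable.comp
          (measurable_pi_lambda _ fun q => hYm n q)).aestronglyMeasurable
      rw [integral_indicator_one hAm] at h3
      rw [← h3, ← integral_indicator hAm]
      congr 1
      funext ω
      by_cases h : ω ∈ A <;> simp [h]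
    have hae : ∀ᵐ ω ∂P, Tendsto (fun n => f (fun q : I => Y n q ω)) atTop
        (𝓝 (f (fun q : I => X q ω))) := by
      have h0 : ∀ᵐ ω ∂P, ∀ q : I, X ((0, q.1.1.1.2), q.1.1.2) ω = 0 :=
        ae_all_iff.2 fun q => hX.ae_zero q.1.2.2 _
      filter_upwards [h0] with ω hω
      refine (f.continuous.tendsto _).comp (tendsto_pi_nhds.2 fun q => ?_)
      have h1 : Tendsto (fun n => (min q.1.1.1.1 (δ n), q.1.1.1.2)) atTop (𝓝 (0, q.1.1.1.2)) := by
        refine Tendsto.prodMk_nhds ?_ tendsto_const_nhds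
        have := (tendsto_const_nhds (x := q.1.1.1.1)).min hδ
        rwa [min_eq_right q.1.2.1] at this
      have h2 := ((hX.cont ω q.1.1.2).tendsto _).comp h1
      rw [hω q] at h2
      simpa [Y] using (tendsto_const_nhds (x := X q ω)).sub h2
    have hmeas : ∀ n, Measurable fun ω => f (fun q : I => Y n q ω) := fun n =>
      f.continuous.measurable.comp (measurable_pi_lambda _ fun q => hYm n q)
    have t1 : Tendsto (fun n => ∫ ω in A, f (fun q : I => Y n q ω) ∂P) atTop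
        (𝓝 (∫ ω in A, f (fun q : I => X q ω) ∂P)) :=
      tendsto_integral_of_dominated_convergence (fun _ => ‖f‖)
        (fun n => (hmeas n).aestronglyMeasurable) (integrable_const _)
        (fun n => Eventually.of_forall fun ω => f.norm_coe_le_norm _) (ae_restrict_of_ae hae)
    have t2 : Tendsto (fun n => ∫ ω, f (fun q : I => Y n q ω) ∂P) atTop
        (𝓝 (∫ ω, f (fun q : I => X q ω) ∂P)) :=
      tendsto_integral_of_dominated_convergence (fun _ => ‖f‖)
        (fun n => (hmeas n).aestronglyMeasurable) (integrable_const _)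
        (fun n => Eventually.of_forall fun ω => f.norm_coe_le_norm _) hae
    simp_rw [hn] at t1
    exact tendsto_nhds_unique t1 (t2.const_mul _)
  have h2 := IndepFun.singleton_indepSets_of_indicator hind
  have hA' : MeasurableSet[MeasurableSpace.pi.comap (fun ω (q : S) => X q ω)] A := by
    refine germ_le X (δ 0) (fun p h1 _ h3 => ?_) A (hA 0)
    exact measurable_comap_eval (fun q : S => X q) ⟨p, h1, h3⟩
  rw [IndepSets_iff] at h2
  have h3 := h2 A A rfl hA'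
  exact measure_eq_zero_or_one_of_indepSet_self
    ((indepSet_iff_measure_inter_eq_mul hAm hAm P).2 h3)

end Pool.Agent.MP_8eb1e4_pr.H39
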