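import Pool.Agent.MP_8eb1e4_pr.H39.Det
import Pool.Agent.MP_8eb1e4_pr.H39.ZeroOne

/-!
Almost sure lower bound for the dimension of all projections with slope at most one.
-/

open MeasureTheory ProbabilityTheory Set Filter Metric
open scoped NNReal ENNReal Topology

namespace Pool.Agent.MP_8eb1e4_pr.H39

variable {Ω : Type*} {d : ℕ}

/-- zero set in the open quadrant. -/
def zeros (X : (ℝ × ℝ) × Fin d → Ω → ℝ) (ω : Ω) : Set (ℝ × ℝ) :=
  {x | 0 < x.1 ∧ 0 < x.2 ∧ ∀ i, X (x, i) ω = 0}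

theorem measurableSet_frequently {m : MeasurableSpace Ω} {A : ℕ → Set Ω}
    (hA : ∀ n, MeasurableSet[m] (A n)) : MeasurableSet[m] {ω | ∃ᶠ n in atTop, ω ∈ A n} := by
  have e : {ω | ∃ᶠ n in atTop, ω ∈ A n} = ⋂ m, ⋃ n ≥ m, A n := by
    ext ω; simp [frequently_atTop]
  rw [e]
  exact MeasurableSet.iInter fun m => MeasurableSet.biUnion (to_countable _) fun n _ => hA n

theorem dimH_mul_image_le (a : ℝ) (S : Set ℝ) : dimH ((fun x => a * x) '' S) ≤ dimH S :=
  (lipschitzWith_smul (β := ℝ) a).dimH_image_le S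

variable {mΩ : MeasurableSpace Ω} {P : Measure Ω} {X : (ℝ × ℝ) × Fin d → Ω → ℝ}

theorem Sheet.lower_beta (hX : Sheet d P X) (hd : d = 2 ∨ d = 3) {β : ℝ} (hβ0 : 0 < β)
    (hβ : β < 2 - (d : ℝ) / 2) :
    ∀ᵐ ω ∂P, ∀ lam : ℝ, |lam| ≤ 1 →
      ENNReal.ofReal β ≤ dimH ((fun x : ℝ × ℝ => x.1 + lam * x.2) '' zeros X ω) := by
  have := hX.gauss.isProbabilityMeasure
  have hβ1 : β ≤ 1 := by
    rcases hd with rfl | rfl <;> norm_num at hβ <;> linarith
  obtain ⟨Λ, c, p, hΛ, hc, hp, H⟩ := prob_good_big (P := P) hd hβ0 hβ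
  set γ : ℝ := 2 - (d : ℝ) / 2 with hγ
  let α : ℕ → ℝ := fun m => (1 / 2) ^ m
  have hα : ∀ m, 0 < α m := fun m => by positivity
  let Xm : ℕ → (ℝ × ℝ) × Fin d → Ω → ℝ := fun m => scaleX (α m) (α m) X
  have hXm : ∀ m, Sheet d P (Xm m) := fun m => hX.scale (hα m) (hα m)
  let E : ℕ → Set Ω := fun m => {ω | ∃ᶠ n in atTop,
    ω ∈ goodEv (Xm m) (n + 1) β γ Λ ∩ bigEv (Xm m) (n + 1) γ c}
  have hEmeas : ∀ (m : ℕ) (M : MeasurableSpace Ω),
      (∀ (n : ℕ), ∀ q ∈ grid (n + 1), ∀ i, Measurable[M] (Xm m (gpt (n + 1) q, i))) →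
      MeasurableSet[M] (E m) := fun m M h =>
    measurableSet_frequently fun n =>
      (measurableSet_goodEv (h n)).inter (measurableSet_bigEv (h n))
  have hEp : ∀ m, p ≤ P.real (E m) := fun m =>
    le_measureReal_frequently (fun n => (measurableSet_goodEv fun q _ i => (hXm m).meas _).inter
      (measurableSet_bigEv fun q _ i => (hXm m).meas _))
      fun n => H _ (hXm m) _ (Nat.succ_pos n)
  let A : Set Ω := {ω | ∃ᶠ m in atTop, ω ∈ E m}
  have hAp : p ≤ P.real A :=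
    le_measureReal_frequently (fun m => hEmeas m _ fun n q _ i => (hXm m).meas _) hEp
  have hAgerm : ∀ k, MeasurableSet[germ X (2 * α k)] A := by
    intro k
    have e : A = {ω | ∃ᶠ m in atTop, ω ∈ E (m + k)} := by
      ext ω
      simp only [A, mem_ofPred_eq]
      conv_lhs => rw [← map_add_atTop_eq_nat k, frequently_map]
    rw [e]
    refine measurableSet_frequently fun m => hEmeas _ _ fun n q hq i => ?_
    obtain ⟨a1, a2, a3, a4⟩ := gpt_mem (Nat.succ_pos n) hq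
    have hle : α (m + k) ≤ α k :=
      pow_le_pow_of_le_one (by norm_num) (by norm_num) (Nat.le_add_left k m)
    have h0 := hα (m + k)
    refine Measurable.const_mul (measurable_germ X _ _ ?_ ?_ ?_) _
    · exact mul_nonneg h0.le (by linarith)
    · show α (m + k) * (gpt (n + 1) q).1 ≤ 2 * α k
      nlinarith
    · exact mul_nonneg h0.le (by linarith)
  have htend : Tendsto (fun k => 2 * α k) atTop (𝓝 0) := by
    have := (tendsto_pow_atTop_nhds_zero_of_lt_one (r := (1 / 2 : ℝ)) (by norm_num)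
      (by norm_num)).const_mul 2
    rw [mul_zero] at this
    exact this
  have hA1 : P A = 1 := by
    rcases hX.zero_one _ (fun k => by have := hα k; positivity) htend hAgerm with h | h
    · exfalso
      rw [measureReal_def, h] at hAp
      simp at hAp
      linarith
    · exact h
  have hAm : MeasurableSet A :=
    measurableSet_frequently fun m => hEmeas m _ fun n q _ i => (hXm m).meas _
  have hae : ∀ᵐ ω ∂P, ω ∈ A := (prob_compl_eq_zero_iff hAm).2 hA1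
  filter_upwards [hae] with ω hω lam hlam
  obtain ⟨m, hm⟩ := Frequently.exists hω
  have hfr : ∃ᶠ N in atTop, ω ∈ goodEv (Xm m) N β γ Λ ∩ bigEv (Xm m) N γ c :=
    (tendsto_add_atTop_nat 1).frequently hm
  have h1 := hausdorff_proj_ne_zero hβ0 hβ1 hΛ hc ((hXm m).cont ω) hfr hlam
  have h2 := le_dimH_of_hausdorffMeasure_ne_zero (d := β.toNNReal)
    (by rw [Real.coe_toNNReal _ hβ0.le]; exact h1)
  refine le_trans h2 (le_trans (dimH_mono ?_) (dimH_mul_image_le (α m)⁻¹ _))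
  rintro _ ⟨x, ⟨⟨⟨b1, b2⟩, ⟨b3, b4⟩⟩, hx⟩, rfl⟩
  have h0 := hα m
  refine ⟨_, ⟨(α m * x.1, α m * x.2), ⟨by positivity, by positivity, fun i => ?_⟩, rfl⟩, ?_⟩
  · have := hx i
    simp only [Xm, scaleX, mul_eq_zero, inv_eq_zero] at this
    rcases this with h | h
    · exact absurd h (Real.sqrt_pos.2 (by positivity)).ne'
    · exact h
  · simp only
    field_simp

theorem Sheet.lower (hX : Sheet d P X) (hd : d = 2 ∨ d = 3) :
    ∀ᵐ ω ∂P, ∀ lam : ℝ, |lam| ≤ 1 →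
      ENNReal.ofReal (2 - (d : ℝ) / 2) ≤
        dimH ((fun x : ℝ × ℝ => x.1 + lam * x.2) '' zeros X ω) := by
  have h : ∀ᵐ ω ∂P, ∀ q : ℚ, 0 < (q : ℝ) → (q : ℝ) < 2 - (d : ℝ) / 2 → ∀ lam : ℝ, |lam| ≤ 1 →
      ENNReal.ofReal q ≤ dimH ((fun x : ℝ × ℝ => x.1 + lam * x.2) '' zeros X ω) := by
    refine ae_all_iff.2 fun q => ?_
    by_cases hq : 0 < (q : ℝ) ∧ (q : ℝ) < 2 - (d : ℝ) / 2
    · filter_upwards [hX.lower_beta hd hq.1 hq.2] with ω hω _ _ using hω
    · exact Eventually.of_forall fun ω h1 h2 => absurd ⟨h1, h2⟩ hq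
  filter_upwards [h] with ω hω lam hlam
  by_contra hlt
  rw [not_le] at hlt
  obtain ⟨q, -, hq1, hq2⟩ := ENNReal.lt_iff_exists_rat_btwn.1 hlt
  have hq0 : 0 < (q : ℝ) := by
    have : (0 : ℝ≥0∞) < (Real.toNNReal q : ℝ≥0∞) := lt_of_le_of_lt bot_le hq1
    simpa using this
  have hq3 : (q : ℝ) < 2 - (d : ℝ) / 2 :=
    (ENNReal.ofReal_lt_ofReal_iff_of_nonneg hq0.le).1 hq2
  exact absurd (hω q hq0 hq3 lam hlam) (not_le.2 hq1)

end Pool.Agent.MP_8eb1e4_pr.H39
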