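import Pool.Agent.MP_8eb1e4_pr.H39.Upper

/-!
All projections for the working form of the sheet, and the reduction of a general Brownian
sheet (almost surely continuous paths) to the working form.
-/

open MeasureTheory ProbabilityTheory Set Filter Metric
open scoped NNReal ENNReal Topology

namespace Pool.Agent.MP_8eb1e4_pr.H39

variable {Ω : Type*} {d : ℕ} {mΩ : MeasurableSpace Ω} {P : Measure Ω}

theorem Sheet.all_proj {X : (ℝ × ℝ) × Fin d → Ω → ℝ} (hX : Sheet d P X) (hd : d = 2 ∨ d = 3) :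
    ∀ᵐ ω ∂P, ∀ θ : ℝ,
      dimH ((fun x : ℝ × ℝ => x.1 * Real.cos θ + x.2 * Real.sin θ) '' zeros X ω) =
        ENNReal.ofReal (2 - (d : ℝ) / 2) := by
  filter_upwards [hX.upper hd, hX.lower hd, hX.swap.lower hd] with ω hu h1 h2 θ
  apply le_antisymm
  · refine le_trans ?_ hu
    let L : (ℝ × ℝ) →L[ℝ] ℝ :=
      Real.cos θ • ContinuousLinearMap.fst ℝ ℝ ℝ + Real.sin θ • ContinuousLinearMap.snd ℝ ℝ ℝ
    have e : (fun x : ℝ × ℝ => x.1 * Real.cos θ + x.2 * Real.sin θ) = L := by
      funext x; simp [L, mul_comm]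
    rw [e]
    exact L.lipschitz.dimH_image_le _
  · have hsc := Real.sin_sq_add_cos_sq θ
    rcases le_total |Real.sin θ| |Real.cos θ| with h | h
    · have hc : Real.cos θ ≠ 0 := by
        intro h0
        rw [h0, abs_zero] at h
        have : Real.sin θ = 0 := abs_eq_zero.1 (le_antisymm h (abs_nonneg _))
        rw [h0, this] at hsc
        norm_num at hsc
      refine (h1 (Real.sin θ / Real.cos θ)
        (by rw [abs_div]; exact div_le_one_of_le₀ h (abs_nonneg _))).trans
        (le_trans (dimH_mono ?_) (dimH_mul_image_le (Real.cos θ)⁻¹ _))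
      rintro _ ⟨x, hx, rfl⟩
      refine ⟨_, ⟨x, hx, rfl⟩, ?_⟩
      simp only
      field_simp
    · have hs : Real.sin θ ≠ 0 := by
        intro h0
        rw [h0, abs_zero] at h
        have : Real.cos θ = 0 := abs_eq_zero.1 (le_antisymm h (abs_nonneg _))
        rw [h0, this] at hsc
        norm_num at hsc
      refine (h2 (Real.cos θ / Real.sin θ)
        (by rw [abs_div]; exact div_le_one_of_le₀ h (abs_nonneg _))).trans
        (le_trans (dimH_mono ?_) (dimH_mul_image_le (Real.sin θ)⁻¹ _))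
      rintro _ ⟨x, hx, rfl⟩
      refine ⟨_, ⟨x.swap, ⟨hx.2.1, hx.1, hx.2.2⟩, rfl⟩, ?_⟩
      simp only [Prod.fst_swap, Prod.snd_swap]
      field_simp
      ring

/-- every Brownian sheet agrees almost surely, at all points at once, with a working sheet. -/
theorem exists_sheet (B : ℝ≥0 × ℝ≥0 → Ω → Fin d → ℝ) [IsProbabilityMeasure P]
    (hgauss : ∀ i, IsGaussianProcess (fun x ω => B x ω i) P)
    (hmean : ∀ i x, ∫ ω, B x ω i ∂P = 0)
    (hcov : ∀ i x y, ∫ ω, B x ω i * B y ω i ∂P =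
      min (x.1 : ℝ) (y.1 : ℝ) * min (x.2 : ℝ) (y.2 : ℝ))
    (hind : iIndepFun (fun i ω x => B x ω i) P)
    (hcont : ∀ᵐ ω ∂P, ∀ i, Continuous fun x => B x ω i) :
    ∃ X : (ℝ × ℝ) × Fin d → Ω → ℝ, Sheet d P X ∧
      ∀ᵐ ω ∂P, ∀ x i, X (x, i) ω = B (x.1.toNNReal, x.2.toNNReal) ω i := by
  classical
  let pr : ℝ × ℝ → ℝ≥0 × ℝ≥0 := fun x => (x.1.toNNReal, x.2.toNNReal)
  have hpr : Continuous pr :=
    (continuous_real_toNNReal.comp continuous_fst).prodMk
      (continuous_real_toNNReal.comp continuous_snd)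
  let u : ℕ → ℝ≥0 × ℝ≥0 := TopologicalSpace.denseSeq (ℝ≥0 × ℝ≥0)
  have hu : DenseRange u := TopologicalSpace.denseRange_denseSeq _
  let g : ℕ → Fin d → Ω → ℝ := fun n i => ((hgauss i).aemeasurable (u n)).mk _
  have hg : ∀ n i, Measurable (g n i) := fun n i => AEMeasurable.measurable_mk _
  have hae : ∀ᵐ ω ∂P, (∀ i, Continuous fun x => B x ω i) ∧ ∀ n i, B (u n) ω i = g n i ω :=
    hcont.and (ae_all_iff.2 fun n => ae_all_iff.2 fun i =>
      ((hgauss i).aemeasurable (u n)).ae_eq_mk)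
  obtain ⟨Z, hZsub, hZm, hZ0⟩ := exists_measurable_superset_of_null (ae_iff.1 hae)
  have hgood : ∀ ω ∈ Zᶜ, (∀ i, Continuous fun x => B x ω i) ∧ ∀ n i, B (u n) ω i = g n i ω := by
    intro ω hω
    by_contra h
    exact hω (hZsub h)
  have hZae : ∀ᵐ ω ∂P, ω ∈ Zᶜ := measure_eq_zero_iff_ae_notMem.1 hZ0
  let X0 : (ℝ × ℝ) × Fin d → Ω → ℝ := fun p ω => B (pr p.1) ω p.2
  let X : (ℝ × ℝ) × Fin d → Ω → ℝ := fun p => Zᶜ.indicator (X0 p)
  have hXX : ∀ p, X0 p =ᵐ[P] X p := fun p => by
    filter_upwards [hZae] with ω hω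
    simp only [X, indicator_of_mem hω]
  have hG0 : IsGaussianProcess X0 P := by
    refine ⟨fun I => ?_⟩
    let J : Finset (ℝ≥0 × ℝ≥0) := I.image (fun p => pr p.1)
    have h1 : iIndepFun (fun i ω => J.restrict (fun x => B x ω i)) P :=
      hind.comp (fun _ f => J.restrict f) fun _ => Finset.measurable_restrict J
    have h2 := h1.hasGaussianLaw (fun i => (hgauss i).hasGaussianLaw J)
    let L : (Fin d → J → ℝ) →L[ℝ] (I → ℝ) :=
      { toFun v p := v p.1.2 ⟨pr p.1.1, Finset.mem_image_of_mem _ p.2⟩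
        map_add' v w := by ext; simp
        map_smul' a v := by ext; simp }
    exact h2.map L
  have hL2 : ∀ p, MemLp (X0 p) 2 P := fun p => (hG0.hasGaussianLaw_eval p).memLp_two
  refine ⟨X, ⟨hG0.congr hXX, ?_, ?_, ?_, ?_⟩, ?_⟩
  · rintro ⟨x, i⟩
    obtain ⟨y, hy, hlim⟩ := mem_closure_iff_seq_limit.1 (hu (pr x))
    choose k hk using hy
    refine measurable_of_tendsto_metrizable (f := fun n => Zᶜ.indicator (g (k n) i))
      (fun n => (hg _ _).indicator hZm.compl) (tendsto_pi_nhds.2 fun ω => ?_)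
    by_cases hω : ω ∈ Zᶜ
    · simp only [X, X0, indicator_of_mem hω, ← (hgood ω hω).2, hk]
      exact (((hgood ω hω).1 i).tendsto _).comp hlim
    · simp only [X, indicator_of_notMem hω]
      exact tendsto_const_nhds
  · intro p
    rw [← integral_congr_ae (hXX p)]
    exact hmean _ _
  · intro p q h1 h2 h3 h4
    have e : cov[X p, X q; P] = cov[X0 p, X0 q; P] := by
      unfold covariance
      rw [← integral_congr_ae (hXX p), ← integral_congr_ae (hXX q)]
      refine integral_congr_ae ?_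
      filter_upwards [hXX p, hXX q] with ω a b
      rw [a, b]
    rw [e]
    split_ifs with h
    · rw [covariance_eq_sub (hL2 p) (hL2 q)]
      have m1 : ∫ ω, X0 p ω ∂P = 0 := hmean _ _
      have m2 : ∫ ω, (X0 p * X0 q) ω ∂P = min p.1.1 q.1.1 * min p.1.2 q.1.2 := by
        have := hcov p.2 (pr p.1) (pr q.1)
        simp only [pr, Real.coe_toNNReal _ h1, Real.coe_toNNReal _ h2, Real.coe_toNNReal _ h3,
          Real.coe_toNNReal _ h4] at this
        rw [← this]
        simp only [X0, Pi.mul_apply, h, pr]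
      rw [m1, m2, zero_mul, sub_zero]
    · have h5 : IndepFun (X0 p) (X0 q) P :=
        (hind.indepFun h).comp (φ := fun f : ℝ≥0 × ℝ≥0 → ℝ => f (pr p.1))
          (ψ := fun f : ℝ≥0 × ℝ≥0 → ℝ => f (pr q.1))
          (measurable_pi_apply (pr p.1)) (measurable_pi_apply (pr q.1))
      exact h5.covariance_eq_zero (hL2 p) (hL2 q)
  · intro ω i
    by_cases hω : ω ∈ Zᶜ
    · simp only [X, X0, indicator_of_mem hω]
      exact ((hgood ω hω).1 i).comp hpr
    · simp only [X, indicator_of_notMem hω]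
      exact continuous_const
  · filter_upwards [hZae] with ω hω x i
    simp only [X, X0, indicator_of_mem hω, pr]

end Pool.Agent.MP_8eb1e4_pr.H39
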