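import Pool.Agent.MP_8eb1e4_pr.H39.Gauss

/-!
The working form of the Brownian sheet (indexed by real points, measurable, all paths
continuous), its symmetries and the sectorial local nondeterminism estimate.
-/

open MeasureTheory ProbabilityTheory Set Filter
open scoped NNReal ENNReal Topology

namespace Pool.Agent.MP_8eb1e4_pr.H39

variable {Ω : Type*} {mΩ : MeasurableSpace Ω} {P : Measure Ω}

/-- working form of the `d`-dimensional Brownian sheet. -/
structure Sheet (d : ℕ) (P : Measure Ω) (X : (ℝ × ℝ) × Fin d → Ω → ℝ) : Prop where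
  gauss : IsGaussianProcess X P
  meas : ∀ p, Measurable (X p)
  mean : ∀ p, ∫ ω, X p ω ∂P = 0
  cov : ∀ p q : (ℝ × ℝ) × Fin d, 0 ≤ p.1.1 → 0 ≤ p.1.2 → 0 ≤ q.1.1 → 0 ≤ q.1.2 →
    cov[X p, X q; P] = if p.2 = q.2 then min p.1.1 q.1.1 * min p.1.2 q.1.2 else 0
  cont : ∀ ω c, Continuous fun x => X (x, c) ω

variable {d : ℕ} {X : (ℝ × ℝ) × Fin d → Ω → ℝ}

theorem Sheet.memLp (hX : Sheet d P X) (p) : MemLp (X p) 2 P :=
  (hX.gauss.hasGaussianLaw_eval p).memLp_two

theorem Sheet.integrable (hX : Sheet d P X) (p) : Integrable (X p) P :=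
  (hX.gauss.hasGaussianLaw_eval p).integrable

/-- exchange of the two parameters. -/
def swapX (X : (ℝ × ℝ) × Fin d → Ω → ℝ) : (ℝ × ℝ) × Fin d → Ω → ℝ :=
  fun p => X (p.1.swap, p.2)

theorem Sheet.swap (hX : Sheet d P X) : Sheet d P (swapX X) where
  gauss := hX.gauss.comp_right (fun p : (ℝ × ℝ) × Fin d => (p.1.swap, p.2))
  meas p := hX.meas _
  mean p := hX.mean _
  cov p q h1 h2 h3 h4 := by
    unfold swapX
    rw [hX.cov _ _ h2 h1 h4 h3]
    simp [mul_comm]
  cont ω c := (hX.cont ω c).comp continuous_swap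

/-- two-parameter scaling. -/
noncomputable def scaleX (α β : ℝ) (X : (ℝ × ℝ) × Fin d → Ω → ℝ) : (ℝ × ℝ) × Fin d → Ω → ℝ :=
  fun p ω => (√(α * β))⁻¹ * X ((α * p.1.1, β * p.1.2), p.2) ω

theorem Sheet.scale (hX : Sheet d P X) {α β : ℝ} (hα : 0 < α) (hβ : 0 < β) :
    Sheet d P (scaleX α β X) where
  gauss := (hX.gauss.comp_right
    (fun p : (ℝ × ℝ) × Fin d => ((α * p.1.1, β * p.1.2), p.2))).smul (fun _ => (√(α * β))⁻¹)
  meas p := (hX.meas _).const_mul _
  mean p := by
    unfold scaleX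
    rw [integral_const_mul, hX.mean, mul_zero]
  cov p q h1 h2 h3 h4 := by
    unfold scaleX
    rw [covariance_const_mul_left, covariance_const_mul_right,
      hX.cov _ _ (by positivity) (by positivity) (by positivity) (by positivity)]
    have hs : (√(α * β))⁻¹ * (√(α * β))⁻¹ = (α * β)⁻¹ := by
      rw [← mul_inv, Real.mul_self_sqrt (by positivity)]
    split_ifs with h
    · simp only
      rw [← mul_assoc, hs, ← mul_min_of_nonneg _ _ hα.le, ← mul_min_of_nonneg _ _ hβ.le]
      field_simp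
    · simp
  cont ω c := by
    unfold scaleX
    exact continuous_const.mul ((hX.cont ω c).comp (by fun_prop))

theorem Sheet.lnd_scalar (hX : Sheet d P X) (S : Finset ((ℝ × ℝ) × Fin d))
    (hS0 : ∀ p ∈ S, 0 ≤ p.1.1 ∧ 0 ≤ p.1.2) (s t : ℝ) (c : Fin d) (ht : 1 ≤ t) {r : ℝ}
    (hr : 0 < r) (hrs : r ≤ s) (hS : ∀ p ∈ S, p.2 = c → r ≤ |p.1.1 - s|) {ε : ℝ} (hε : 0 ≤ ε) :
    P.real ({ω | ∀ p ∈ S, |X p ω| ≤ ε} ∩ {ω | |X ((s, t), c) ω| ≤ ε}) ≤
      ε / √(r / 2) * P.real {ω | ∀ p ∈ S, |X p ω| ≤ ε} := by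
  have := hX.gauss.isProbabilityMeasure
  have m2 : MemLp (fun ω => X ((s - r, 1), c) ω / 2) 2 P := by
    simpa [div_eq_mul_inv] using (hX.memLp ((s - r, 1), c)).mul_const 2⁻¹
  have m3 : MemLp (fun ω => X ((s + r, 1), c) ω / 2) 2 P := by
    simpa [div_eq_mul_inv] using (hX.memLp ((s + r, 1), c)).mul_const 2⁻¹
  have m12 : MemLp (fun ω => X ((s, 1), c) ω - X ((s - r, 1), c) ω / 2) 2 P :=
    (hX.memLp _).sub m2
  have mW : MemLp (fun ω => X ((s, 1), c) ω - X ((s - r, 1), c) ω / 2 -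
      X ((s + r, 1), c) ω / 2) 2 P := m12.sub m3
  have hcov : ∀ p : (ℝ × ℝ) × Fin d, 0 ≤ p.1.1 → 0 ≤ p.1.2 →
      cov[X p, fun ω => X ((s, 1), c) ω - X ((s - r, 1), c) ω / 2 - X ((s + r, 1), c) ω / 2; P] =
        if p.2 = c then (min p.1.1 s - min p.1.1 (s - r) / 2 - min p.1.1 (s + r) / 2) * min p.1.2 1
        else 0 := by
    intro p h1 h2
    rw [covariance_fun_sub_right (hX.memLp p) m12 m3,
      covariance_fun_sub_right (hX.memLp p) (hX.memLp _) m2,
      covariance_fun_div_right, covariance_fun_div_right,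
      hX.cov _ _ h1 h2 (by simp; linarith) (by simp),
      hX.cov _ _ h1 h2 (by simp; linarith) (by simp),
      hX.cov _ _ h1 h2 (by simp; linarith) (by simp)]
    split_ifs with h
    · ring
    · simp
  refine lnd_abstract hX.gauss hX.meas S ((s, t), c) ((s, 1), c) ((s - r, 1), c) ((s + r, 1), c)
    (by linarith) ?_ ?_ ?_ ?_ hε
  · rw [integral_sub (m12.integrable (by norm_num)) (m3.integrable (by norm_num)),
      integral_sub (hX.integrable _) ((hX.integrable _).div_const 2), integral_div, integral_div,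
      hX.mean, hX.mean, hX.mean]
    simp
  · rw [covariance_fun_sub_left m12 m3 mW,
      covariance_fun_sub_left (hX.memLp _) m2 mW, covariance_fun_div_left, covariance_fun_div_left,
      hcov _ (by simp; linarith) (by simp), hcov _ (by simp; linarith) (by simp),
      hcov _ (by simp; linarith) (by simp)]
    simp only [if_true, min_self]
    rw [min_eq_right (by linarith : s - r ≤ s), min_eq_left (by linarith : s ≤ s + r),
      min_eq_left (by linarith : s - r ≤ s), min_eq_left (by linarith : s - r ≤ s + r),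
      min_eq_right (by linarith : s ≤ s + r), min_eq_right (by linarith : s - r ≤ s + r)]
    ring
  · rw [hcov _ (by simp; linarith) (by simp; linarith)]
    simp only [if_true, min_self]
    rw [min_eq_right (by linarith : s - r ≤ s), min_eq_left (by linarith : s ≤ s + r),
      min_eq_right ht]
    ring
  · intro p hp
    rw [hcov p (hS0 p hp).1 (hS0 p hp).2]
    split_ifs with h
    · rcases le_abs.1 (hS p hp h) with h' | h'
      · rw [min_eq_right (by linarith : s ≤ p.1.1), min_eq_right (by linarith : s - r ≤ p.1.1),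
          min_eq_right (by linarith : s + r ≤ p.1.1)]
        ring
      · rw [min_eq_left (by linarith : p.1.1 ≤ s), min_eq_left (by linarith : p.1.1 ≤ s - r),
          min_eq_left (by linarith : p.1.1 ≤ s + r)]
        ring
    · rfl

/-- all coordinates of the sheet at the point `x` are at most `ε` in absolute value. -/
def small (X : (ℝ × ℝ) × Fin d → Ω → ℝ) (ε : ℝ) (x : ℝ × ℝ) : Set Ω :=
  {ω | ∀ c, |X (x, c) ω| ≤ ε}

theorem measurableSet_small {m : MeasurableSpace Ω} {ε : ℝ} {x : ℝ × ℝ}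
    (h : ∀ c, Measurable[m] (X (x, c))) : MeasurableSet[m] (small X ε x) := by
  simp only [small, ofPred_forall]
  exact MeasurableSet.iInter fun c => measurableSet_le (h c).abs measurable_const

theorem Sheet.lnd_vec (hX : Sheet d P X) {ι : Type*} (pt : ι → ℝ × ℝ) (S : Finset ι)
    (hS0 : ∀ i ∈ S, 0 ≤ (pt i).1 ∧ 0 ≤ (pt i).2) (x : ℝ × ℝ) (ht : 1 ≤ x.2) {r : ℝ}
    (hr : 0 < r) (hrs : r ≤ x.1) (hS : ∀ i ∈ S, r ≤ |(pt i).1 - x.1|) {ε : ℝ} (hε : 0 ≤ ε) :
    P.real ((⋂ i ∈ S, small X ε (pt i)) ∩ small X ε x) ≤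
      (ε / √(r / 2)) ^ d * P.real (⋂ i ∈ S, small X ε (pt i)) := by
  classical
  have key : ∀ C : Finset (Fin d),
      P.real ((⋂ i ∈ S, small X ε (pt i)) ∩ {ω | ∀ c ∈ C, |X (x, c) ω| ≤ ε}) ≤
      (ε / √(r / 2)) ^ C.card * P.real (⋂ i ∈ S, small X ε (pt i)) := by
    intro C
    induction C using Finset.induction_on with
    | empty => simp
    | insert c C hc ih =>
      let S' : Finset ((ℝ × ℝ) × Fin d) := (S.image pt) ×ˢ Finset.univ ∪ C.image (fun c => (x, c))
      have e1 : (⋂ i ∈ S, small X ε (pt i)) ∩ {ω | ∀ c ∈ C, |X (x, c) ω| ≤ ε} =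
          {ω | ∀ p ∈ S', |X p ω| ≤ ε} := by
        ext ω
        simp only [S', small, mem_inter_iff, mem_iInter, mem_ofPred_eq, Finset.mem_union,
          Finset.mem_product, Finset.mem_image, Finset.mem_univ, and_true]
        constructor
        · rintro ⟨h1, h2⟩ ⟨y, c'⟩ (⟨i, hi, rfl⟩ | ⟨c'', hc'', h⟩)
          · exact h1 i hi c'
          · rw [← h]; exact h2 c'' hc''
        · intro h
          exact ⟨fun i hi c' => h (pt i, c') (Or.inl ⟨i, hi, rfl⟩),
            fun c' hc' => h (x, c') (Or.inr ⟨c', hc', rfl⟩)⟩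
      have e2 : (⋂ i ∈ S, small X ε (pt i)) ∩ {ω | ∀ c' ∈ insert c C, |X (x, c') ω| ≤ ε} =
          {ω | ∀ p ∈ S', |X p ω| ≤ ε} ∩ {ω | |X ((x.1, x.2), c) ω| ≤ ε} := by
        rw [← e1]
        ext ω
        simp only [mem_inter_iff, mem_ofPred_eq, Finset.forall_mem_insert]
        tauto
      rw [e2, Finset.card_insert_of_notMem hc]
      refine (hX.lnd_scalar S' ?_ x.1 x.2 c ht hr hrs ?_ hε).trans ?_
      · rintro ⟨y, c'⟩ hp
        simp only [S', Finset.mem_union, Finset.mem_product, Finset.mem_image, Finset.mem_univ,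
          and_true] at hp
        rcases hp with ⟨i, hi, rfl⟩ | ⟨c'', -, h⟩
        · exact hS0 i hi
        · obtain ⟨rfl, rfl⟩ := Prod.mk.inj h
          exact ⟨by linarith, by linarith⟩
      · rintro ⟨y, c'⟩ hp hcc
        simp only [S', Finset.mem_union, Finset.mem_product, Finset.mem_image, Finset.mem_univ,
          and_true] at hp
        rcases hp with ⟨i, hi, rfl⟩ | ⟨c'', hc'', h⟩
        · exact hS i hi
        · obtain ⟨rfl, rfl⟩ := Prod.mk.inj h
          simp only at hcc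
          subst hcc
          exact absurd hc'' hc
      · rw [← e1, pow_succ', mul_assoc]
        exact mul_le_mul_of_nonneg_left ih (by positivity)
  have := key Finset.univ
  simpa [small] using this

theorem Sheet.small_ge (hX : Sheet d P X) (x : ℝ × ℝ) (h1 : 1 ≤ x.1) (h2 : x.1 ≤ 2)
    (h3 : 1 ≤ x.2) (h4 : x.2 ≤ 2) {ε : ℝ} (hε : 0 ≤ ε) (hε1 : ε ≤ 1) :
    (ε / 6) ^ d ≤ P.real (small X ε x) := by
  have := hX.gauss.isProbabilityMeasure
  have hG : HasGaussianLaw (fun ω c => X (x, c) ω) P := by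
    have h := (hX.gauss.comp_right (fun c : Fin d => (x, c))).hasGaussianLaw Finset.univ
    let L : (↥(Finset.univ : Finset (Fin d)) → ℝ) →L[ℝ] (Fin d → ℝ) :=
      { toFun u c := u ⟨c, Finset.mem_univ c⟩
        map_add' u v := by ext; simp
        map_smul' a u := by ext; simp }
    exact h.map L
  have hind : iIndepFun (fun c => X (x, c)) P := by
    refine hG.iIndepFun_of_covariance_eq_zero fun i j hij => ?_
    rw [hX.cov _ _ (by simp; linarith) (by simp; linarith) (by simp; linarith)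
      (by simp; linarith)]
    simp [hij]
  have hmeas : MeasurableSet {w : ℝ | |w| ≤ ε} := measurableSet_le measurable_abs measurable_const
  have e : small X ε x = ⋂ c, (X (x, c)) ⁻¹' {w : ℝ | |w| ≤ ε} := by
    ext ω; simp [small]
  have hprod := hind.meas_iInter (s := fun c => (X (x, c)) ⁻¹' {w : ℝ | |w| ≤ ε})
    (fun c => ⟨_, hmeas, rfl⟩)
  have hc : ∀ c, ENNReal.ofReal (ε / 6) ≤ P ((X (x, c)) ⁻¹' {w : ℝ | |w| ≤ ε}) := by
    intro c
    have hv : cov[X (x, c), X (x, c); P] = x.1 * x.2 := by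
      rw [hX.cov _ _ (by simp; linarith) (by simp; linarith) (by simp; linarith)
        (by simp; linarith)]
      simp
    rw [← Measure.map_apply (hX.meas _) hmeas,
      map_eq_of_var (hX.gauss.hasGaussianLaw_eval _) (hX.mean _) hv]
    apply gauss_ball_ge _ _ ε hε hε1
    · rw [Real.coe_toNNReal _ (by positivity)]; nlinarith
    · rw [Real.coe_toNNReal _ (by positivity)]; nlinarith
  have h5 : ENNReal.ofReal (ε / 6) ^ d ≤ P (small X ε x) := by
    rw [e, hprod]
    calc ENNReal.ofReal (ε / 6) ^ d = ∏ _c : Fin d, ENNReal.ofReal (ε / 6) := by simp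
      _ ≤ _ := Finset.prod_le_prod' fun c _ => hc c
  rw [← ENNReal.ofReal_pow (by positivity)] at h5
  exact (ENNReal.ofReal_le_iff_le_toReal (measure_ne_top _ _)).1 h5

end Pool.Agent.MP_8eb1e4_pr.H39
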