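import Pool.Agent.MP_8eb1e4_pr.H39.Lattice

/-!
With probability bounded below, the near-zeros of the sheet on a fine grid are numerous and
satisfy a Frostman bound on every strip of a net.
-/

open MeasureTheory ProbabilityTheory Set Filter
open scoped NNReal ENNReal Topology

namespace Pool.Agent.MP_8eb1e4_pr.H39

theorem card_le_of_interval (I : Finset ℕ) {x L : ℝ} (hL : 0 ≤ L)
    (h : ∀ i ∈ I, x ≤ i ∧ (i : ℝ) ≤ x + L) : (I.card : ℝ) ≤ L + 1 := by
  rcases I.eq_empty_or_nonempty with rfl | hne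
  · simp; linarith
  · have hsub : I ⊆ Finset.Icc (I.min' hne) (I.max' hne) := fun i hi =>
      Finset.mem_Icc.2 ⟨I.min'_le i hi, I.le_max' i hi⟩
    have h1 := Finset.card_le_card hsub
    rw [Nat.card_Icc] at h1
    have h2 := (h _ (I.min'_mem hne)).1
    have h3 := (h _ (I.max'_mem hne)).2
    have h4 : I.min' hne ≤ I.max' hne := I.min'_le _ (I.max'_mem hne)
    have h5 : I.card + I.min' hne ≤ I.max' hne + 1 := by omega
    have h6 : (I.card : ℝ) + I.min' hne ≤ I.max' hne + 1 := by exact_mod_cast h5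
    linarith

/-- grid points in the strip of the net with scale `2^(-l)`, slope `u / 2^l`, position `v / 2^l`. -/
noncomputable def strip (N l : ℕ) (u v : ℤ) : Finset (ℕ × ℕ) :=
  (grid N).filter (fun q => |(gpt N q).1 + u / 2 ^ l * (gpt N q).2 - v / 2 ^ l| ≤ 4 / 2 ^ l)

theorem strip_row {N l : ℕ} (hN : 0 < N) (hl : 2 ^ l ≤ N) (u v : ℤ) (j : ℕ) :
    (((Finset.Ico N (2 * N)).filter (fun i => (i, j) ∈ strip N l u v)).card : ℝ) ≤
      9 * N / 2 ^ l := by
  have hN' : (0 : ℝ) < N := by exact_mod_cast hN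
  have hl' : (2 : ℝ) ^ l ≤ N := by exact_mod_cast hl
  have h2 : (0 : ℝ) < 2 ^ l := by positivity
  refine (card_le_of_interval _ (x := N * (v / 2 ^ l - u / 2 ^ l * (j / N) - 4 / 2 ^ l))
    (L := 8 * N / 2 ^ l) (by positivity) ?_).trans ?_
  · intro i hi
    have h := (Finset.mem_filter.1 (Finset.mem_filter.1 hi).2).2
    simp only [gpt] at h
    obtain ⟨h1, h3⟩ := abs_le.1 h
    have e : (i : ℝ) = N * (i / N) := by field_simp
    constructor
    · rw [e]; exact mul_le_mul_of_nonneg_left (by linarith) hN'.le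
    · have e2 : (N : ℝ) * (v / 2 ^ l - u / 2 ^ l * (j / N) - 4 / 2 ^ l) + 8 * N / 2 ^ l =
          N * (v / 2 ^ l - u / 2 ^ l * (j / N) + 4 / 2 ^ l) := by ring
      rw [e2, e]; exact mul_le_mul_of_nonneg_left (by linarith) hN'.le
  · have : (1 : ℝ) ≤ N / 2 ^ l := by rw [le_div_iff₀ h2]; linarith
    have e : (9 : ℝ) * N / 2 ^ l = 8 * N / 2 ^ l + N / 2 ^ l := by ring
    linarith

variable {Ω : Type*} {mΩ : MeasurableSpace Ω} {P : Measure Ω}
variable {d : ℕ} {X : (ℝ × ℝ) × Fin d → Ω → ℝ}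

/-- Frostman bound on all strips of the net. -/
def goodEv (X : (ℝ × ℝ) × Fin d → Ω → ℝ) (N : ℕ) (β γ Λ : ℝ) : Set Ω :=
  {ω | ∀ l : ℕ, 2 ^ l ≤ N → ∀ u ∈ Finset.Icc (-(2 ^ l : ℤ)) (2 ^ l),
    ∀ v ∈ Finset.Icc (-(6 * 2 ^ l : ℤ)) (6 * 2 ^ l),
      cnt (ev X N) (strip N l u v) ω < Λ * (((2 : ℝ) ^ l) ^ (-β) * (N : ℝ) ^ γ)}

/-- many near-zeros. -/
def bigEv (X : (ℝ × ℝ) × Fin d → Ω → ℝ) (N : ℕ) (γ c : ℝ) : Set Ω :=
  {ω | c * (N : ℝ) ^ γ ≤ cnt (ev X N) (grid N) ω}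

theorem measurableSet_goodEv {m : MeasurableSpace Ω} {N : ℕ} {β γ Λ : ℝ}
    (h : ∀ q ∈ grid N, ∀ c, Measurable[m] (X (gpt N q, c))) :
    MeasurableSet[m] (goodEv X N β γ Λ) := by
  simp only [goodEv, ofPred_forall]
  refine MeasurableSet.iInter fun l => MeasurableSet.iInter fun _ =>
    MeasurableSet.iInter fun u => MeasurableSet.iInter fun _ =>
    MeasurableSet.iInter fun v => MeasurableSet.iInter fun _ => ?_
  exact measurableSet_lt (measurable_cnt _ _ fun q hq =>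
    measurableSet_small (h q (Finset.mem_filter.1 hq).1)) measurable_const

theorem measurableSet_bigEv {m : MeasurableSpace Ω} {N : ℕ} {γ c : ℝ}
    (h : ∀ q ∈ grid N, ∀ c, Measurable[m] (X (gpt N q, c))) :
    MeasurableSet[m] (bigEv X N γ c) :=
  measurableSet_le measurable_const (measurable_cnt _ _ fun q hq => measurableSet_small (h q hq))

theorem prob_big {a b : ℝ} (ha : 0 ≤ a) (hb : 0 ≤ b) (ha1 : a < 1) (hb1 : b < 1)
    (hab : a + b = (d : ℝ) / 2) :
    ∃ c p : ℝ, 0 < c ∧ 0 < p ∧ ∀ X : (ℝ × ℝ) × Fin d → Ω → ℝ, Sheet d P X → ∀ N : ℕ, 0 < N →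
      p ≤ P.real (bigEv X N (2 - (d : ℝ) / 2) c) := by
  have h1a : 0 < 1 - a := by linarith
  have h1b : 0 < 1 - b := by linarith
  set C : ℝ := 2 ^ d * 16 / ((1 - a) * (1 - b)) with hC
  refine ⟨(1 / 6) ^ d / 2, ((1 / 6) ^ d) ^ 2 / (4 * C ^ 2), by positivity, by positivity, ?_⟩
  intro X hX N hN
  have := hX.gauss.isProbabilityMeasure
  have hN' : (0 : ℝ) < N := by exact_mod_cast hN
  have hN1 : (1 : ℝ) ≤ N := by exact_mod_cast hN
  have hE : ∀ q ∈ grid N, MeasurableSet (ev X N q) := fun q _ => hX.measurableSet_ev N q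
  have hpz := paley_zygmund_cnt (P := P) (ev X N) (grid N) hE (c := (1 / 6) ^ d) (C := C)
    (m := (N : ℝ) ^ (2 - (d : ℝ) / 2)) (by positivity) (by positivity) (by positivity) ?_ ?_
  · refine hpz.trans (le_of_eq ?_)
    congr 1
    ext ω
    simp only [bigEv, mem_ofPred_eq]
    rw [div_mul_eq_mul_div]
  · rw [integral_cnt _ _ hE]
    have hs : (√(N : ℝ))⁻¹ ≤ 1 := inv_le_one_of_one_le₀ (Real.one_le_sqrt.2 hN1)
    calc (1 / 6 : ℝ) ^ d * (N : ℝ) ^ (2 - (d : ℝ) / 2)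
        = ∑ _q ∈ grid N, ((√(N : ℝ))⁻¹ / 6) ^ d := by
          rw [Finset.sum_const, grid, Finset.card_product, Nat.card_Ico, nsmul_eq_mul,
            show 2 * N - N = N by omega]
          have e : ((√(N : ℝ))⁻¹) ^ d = (N : ℝ) ^ (-((d : ℝ) / 2)) := by
            rw [Real.sqrt_eq_rpow, ← Real.rpow_neg (by positivity), ← Real.rpow_natCast,
              ← Real.rpow_mul (by positivity)]
            congr 1; ring
          rw [div_pow, div_pow, e, sub_eq_add_neg, Real.rpow_add hN']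
          push_cast
          rw [Real.rpow_two]
          ring
      _ ≤ _ := Finset.sum_le_sum fun q hq => by
          obtain ⟨h1, h2, h3, h4⟩ := gpt_mem hN hq
          exact hX.small_ge _ h1 h2 h3 h4 (by positivity) hs
  · refine (hX.moment_rows hN ha hb ha1 hb1 hab (grid N) (Finset.Subset.refl _) (W := N)
      (fun j => ?_) 2).trans (le_of_eq ?_)
    · have := Finset.card_filter_le (Finset.Ico N (2 * N)) (fun i => (i, j) ∈ grid N)
      rw [Nat.card_Ico] at this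
      exact_mod_cast this.trans (by omega)
    · congr 1
      have e : (N : ℝ) ^ (2 - (d : ℝ) / 2) = (N : ℝ) ^ (1 - a) * (N : ℝ) ^ (1 - b) := by
        rw [← Real.rpow_add hN', ← hab]; congr 1; ring
      rw [e, hC]
      push_cast
      field_simp
      ring

theorem prob_strip (hX : Sheet d P X) {a b η β : ℝ} (ha : 0 ≤ a) (hb : 0 ≤ b) (ha1 : a < 1)
    (hb1 : b < 1) (hab : a + b = (d : ℝ) / 2) (hβ : 1 - a = β + η) {K : ℕ} (hK : 3 ≤ η * K)
    {Λ : ℝ} (hΛ : 0 < Λ) {N l : ℕ} (hN : 0 < N) (hl : 2 ^ l ≤ N) (u v : ℤ) :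
    P.real {ω | Λ * (((2 : ℝ) ^ l) ^ (-β) * (N : ℝ) ^ (2 - (d : ℝ) / 2)) ≤
        cnt (ev X N) (strip N l u v) ω} ≤
      (2 ^ d * K ^ 2 * 36 / ((1 - a) * (1 - b)) / Λ) ^ K / ((2 : ℝ) ^ l) ^ 3 := by
  have := hX.gauss.isProbabilityMeasure
  have h1a : 0 < 1 - a := by linarith
  have h1b : 0 < 1 - b := by linarith
  have hN' : (0 : ℝ) < N := by exact_mod_cast hN
  have h2 : (0 : ℝ) < 2 ^ l := by positivity
  have h21 : (1 : ℝ) ≤ 2 ^ l := one_le_pow₀ (by norm_num)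
  have hm := hX.moment_rows hN ha hb ha1 hb1 hab (strip N l u v) (Finset.filter_subset _ _)
    (strip_row hN hl u v) K
  refine (markov_cnt _ _ (fun q _ => hX.measurableSet_ev N q) K (by positivity) hm).trans ?_
  set C0 : ℝ := 2 ^ d * K ^ 2 * 36 / ((1 - a) * (1 - b)) with hC0
  have hW : (9 * (N : ℝ) / 2 ^ l) ^ (1 - a) ≤
      9 * ((N : ℝ) ^ (1 - a) * (((2 : ℝ) ^ l) ^ (-β) * ((2 : ℝ) ^ l) ^ (-η))) := by
    rw [← Real.rpow_add h2, show -β + -η = -(1 - a) by linarith, Real.rpow_neg h2.le,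
      Real.div_rpow (by positivity) h2.le, Real.mul_rpow (by norm_num) hN'.le, div_eq_mul_inv,
      mul_assoc]
    refine mul_le_mul_of_nonneg_right ?_ (by positivity)
    calc (9 : ℝ) ^ (1 - a) ≤ 9 ^ (1 : ℝ) :=
          Real.rpow_le_rpow_of_exponent_le (by norm_num) (by linarith)
      _ = 9 := Real.rpow_one _
  have e : (N : ℝ) ^ (2 - (d : ℝ) / 2) = (N : ℝ) ^ (1 - a) * (N : ℝ) ^ (1 - b) := by
    rw [← Real.rpow_add hN', ← hab]; congr 1; ring
  have hratio : 2 ^ d * K ^ 2 * (2 * (9 * (N : ℝ) / 2 ^ l) ^ (1 - a) / (1 - a) *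
      (2 * (N : ℝ) ^ (1 - b) / (1 - b))) /
      (Λ * (((2 : ℝ) ^ l) ^ (-β) * (N : ℝ) ^ (2 - (d : ℝ) / 2))) ≤
      C0 / Λ * ((2 : ℝ) ^ l) ^ (-η) := by
    rw [div_le_iff₀ (by positivity), e]
    calc _ ≤ 2 ^ d * K ^ 2 * (2 * (9 * ((N : ℝ) ^ (1 - a) *
          (((2 : ℝ) ^ l) ^ (-β) * ((2 : ℝ) ^ l) ^ (-η)))) / (1 - a) *
          (2 * (N : ℝ) ^ (1 - b) / (1 - b))) := by gcongr
      _ = _ := by rw [hC0]; field_simp; ring
  refine (pow_le_pow_left₀ (by positivity) hratio K).trans ?_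
  rw [mul_pow, div_eq_mul_inv ((C0 / Λ) ^ K)]
  refine mul_le_mul_of_nonneg_left ?_ (by positivity)
  rw [← Real.rpow_natCast, ← Real.rpow_mul h2.le, ← Real.rpow_natCast _ 3, ← Real.rpow_neg h2.le]
  apply Real.rpow_le_rpow_of_exponent_le h21
  push_cast
  linarith

theorem prob_not_good (hX : Sheet d P X) {a b η β : ℝ} (ha : 0 ≤ a) (hb : 0 ≤ b) (ha1 : a < 1)
    (hb1 : b < 1) (hab : a + b = (d : ℝ) / 2) (hβ : 1 - a = β + η) {K : ℕ} (hK : 3 ≤ η * K)
    {Λ : ℝ} (hΛ : 0 < Λ) {N : ℕ} (hN : 0 < N) :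
    P.real (goodEv X N β (2 - (d : ℝ) / 2) Λ)ᶜ ≤
      78 * (2 ^ d * K ^ 2 * 36 / ((1 - a) * (1 - b)) / Λ) ^ K := by
  classical
  have := hX.gauss.isProbabilityMeasure
  have h1a : 0 < 1 - a := by linarith
  have h1b : 0 < 1 - b := by linarith
  set R : ℝ := (2 ^ d * K ^ 2 * 36 / ((1 - a) * (1 - b)) / Λ) ^ K with hR
  have hR0 : 0 ≤ R := by positivity
  have hsub : (goodEv X N β (2 - (d : ℝ) / 2) Λ)ᶜ ⊆
      ⋃ l ∈ (Finset.range N).filter (fun l => 2 ^ l ≤ N),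
        ⋃ u ∈ Finset.Icc (-(2 ^ l : ℤ)) (2 ^ l),
          ⋃ v ∈ Finset.Icc (-(6 * 2 ^ l : ℤ)) (6 * 2 ^ l),
            {ω | Λ * (((2 : ℝ) ^ l) ^ (-β) * (N : ℝ) ^ (2 - (d : ℝ) / 2)) ≤
              cnt (ev X N) (strip N l u v) ω} := by
    intro ω hω
    simp only [goodEv, mem_compl_iff, mem_ofPred_eq, not_forall, not_lt] at hω
    obtain ⟨l, hl, u, hu, v, hv, h⟩ := hω
    simp only [mem_iUnion, mem_ofPred_eq]
    exact ⟨l, Finset.mem_filter.2 ⟨Finset.mem_range.2 (lt_of_lt_of_le Nat.lt_two_pow_self hl), hl⟩,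
      u, hu, v, hv, h⟩
  refine (measureReal_mono hsub (measure_ne_top _ _)).trans
    ((measureReal_biUnion_finset_le _ _).trans ?_)
  calc _ ≤ ∑ l ∈ (Finset.range N).filter (fun l => 2 ^ l ≤ N), 39 * R * (1 / 2) ^ l := by
        refine Finset.sum_le_sum fun l hl => ?_
        have hl' := (Finset.mem_filter.1 hl).2
        have h2 : (0 : ℝ) < 2 ^ l := by positivity
        have h21 : (1 : ℝ) ≤ 2 ^ l := one_le_pow₀ (by norm_num)
        refine (measureReal_biUnion_finset_le _ _).trans ?_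
        calc _ ≤ ∑ _u ∈ Finset.Icc (-(2 ^ l : ℤ)) (2 ^ l),
              ∑ _v ∈ Finset.Icc (-(6 * 2 ^ l : ℤ)) (6 * 2 ^ l), R / ((2 : ℝ) ^ l) ^ 3 :=
              Finset.sum_le_sum fun u _ => (measureReal_biUnion_finset_le _ _).trans
                (Finset.sum_le_sum fun v _ => prob_strip hX ha hb ha1 hb1 hab hβ hK hΛ hN hl' u v)
          _ = (2 * 2 ^ l + 1) * ((12 * 2 ^ l + 1) * (R / ((2 : ℝ) ^ l) ^ 3)) := by
              simp only [Finset.sum_const, nsmul_eq_mul, Int.card_Icc]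
              have e1 : (((2 ^ l : ℤ) + 1 - -(2 ^ l)).toNat : ℝ) = 2 * 2 ^ l + 1 := by
                have : (((2 ^ l : ℤ) + 1 - -(2 ^ l)).toNat : ℤ) = 2 * 2 ^ l + 1 := by
                  rw [Int.toNat_of_nonneg (by have : (0 : ℤ) < 2 ^ l := by positivity
                                              linarith)]
                  ring
                exact_mod_cast this
              have e2 : (((6 * 2 ^ l : ℤ) + 1 - -(6 * 2 ^ l)).toNat : ℝ) = 12 * 2 ^ l + 1 := by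
                have : (((6 * 2 ^ l : ℤ) + 1 - -(6 * 2 ^ l)).toNat : ℤ) = 12 * 2 ^ l + 1 := by
                  rw [Int.toNat_of_nonneg (by have : (0 : ℤ) < 2 ^ l := by positivity
                                              linarith)]
                  ring
                exact_mod_cast this
              rw [e1, e2]
          _ ≤ (3 * 2 ^ l) * ((13 * 2 ^ l) * (R / ((2 : ℝ) ^ l) ^ 3)) := by
              gcongr <;> linarith
          _ = 39 * R * (1 / 2) ^ l := by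
              rw [one_div, inv_pow]; field_simp; ring
    _ ≤ ∑ l ∈ Finset.range N, 39 * R * (1 / 2) ^ l :=
        Finset.sum_le_sum_of_subset_of_nonneg (Finset.filter_subset _ _)
          fun _ _ _ => by positivity
    _ ≤ 78 * R := by
        rw [← Finset.mul_sum]
        have := sum_geometric_two_le N
        nlinarith

theorem prob_good_big (hd : d = 2 ∨ d = 3) {β : ℝ} (hβ0 : 0 < β) (hβ : β < 2 - (d : ℝ) / 2) :
    ∃ Λ c p : ℝ, 0 < Λ ∧ 0 < c ∧ 0 < p ∧ ∀ X : (ℝ × ℝ) × Fin d → Ω → ℝ, Sheet d P X →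
      ∀ N : ℕ, 0 < N →
        p ≤ P.real (goodEv X N β (2 - (d : ℝ) / 2) Λ ∩ bigEv X N (2 - (d : ℝ) / 2) c) := by
  have hd1 : (1 : ℝ) ≤ (d : ℝ) / 2 := by rcases hd with rfl | rfl <;> norm_num
  set η : ℝ := (2 - (d : ℝ) / 2 - β) / 2 with hη
  have hη0 : 0 < η := by rw [hη]; linarith
  set a : ℝ := (d : ℝ) / 2 - 1 + η with ha
  set b : ℝ := 1 - η with hb
  have ha0 : 0 ≤ a := by linarith
  have hb0 : 0 ≤ b := by linarith
  have ha1 : a < 1 := by linarith
  have hb1 : b < 1 := by linarith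
  have h1a : 0 < 1 - a := by linarith
  have h1b : 0 < 1 - b := by linarith
  have hab : a + b = (d : ℝ) / 2 := by linarith
  obtain ⟨c, p, hc, hp, hbig⟩ := prob_big (P := P) ha0 hb0 ha1 hb1 hab
  obtain ⟨K, hK⟩ := exists_nat_ge (3 / η)
  have hK3 : 3 ≤ η * K := by rwa [div_le_iff₀ hη0, mul_comm] at hK
  have hK0 : 0 < K := by
    rcases Nat.eq_zero_or_pos K with rfl | h
    · simp at hK3; linarith
    · exact h
  have hK0' : (0 : ℝ) < K := by exact_mod_cast hK0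
  set C0 : ℝ := 2 ^ d * K ^ 2 * 36 / ((1 - a) * (1 - b)) with hC0
  have hC0' : 0 < C0 := by positivity
  refine ⟨C0 * (1 + 156 / p), c, p / 2, by positivity, hc, by positivity, fun X hX N hN => ?_⟩
  have := hX.gauss.isProbabilityMeasure
  have h1 := prob_not_good hX ha0 hb0 ha1 hb1 hab (β := β) (η := η) (by linarith) hK3
    (Λ := C0 * (1 + 156 / p)) (by positivity) hN
  have h2 := hbig X hX N hN
  have h3 : C0 / (C0 * (1 + 156 / p)) = p / (p + 156) := by field_simp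
  rw [← hC0, h3] at h1
  have h4 : (p / (p + 156)) ^ K ≤ p / (p + 156) :=
    pow_le_of_le_one (by positivity) (by rw [div_le_one (by positivity)]; linarith) hK0.ne'
  have h5 : p / (p + 156) ≤ p / 156 := by gcongr; linarith
  have h6 : bigEv X N (2 - (d : ℝ) / 2) c ⊆
      (goodEv X N β (2 - (d : ℝ) / 2) (C0 * (1 + 156 / p)) ∩ bigEv X N (2 - (d : ℝ) / 2) c) ∪
        (goodEv X N β (2 - (d : ℝ) / 2) (C0 * (1 + 156 / p)))ᶜ := by
    intro ω hω
    by_cases h : ω ∈ goodEv X N β (2 - (d : ℝ) / 2) (C0 * (1 + 156 / p))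
    · exact Or.inl ⟨h, hω⟩
    · exact Or.inr h
  have h7 := (measureReal_mono h6 (measure_ne_top P _)).trans (measureReal_union_le _ _)
  linarith

end Pool.Agent.MP_8eb1e4_pr.H39
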