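import Pool.Agent.MP_8eb1e4_pr.H39.Lower

/-!
Almost sure upper bound for the dimension of the zero set.
-/

open MeasureTheory ProbabilityTheory Set Filter Metric
open scoped NNReal ENNReal Topology

namespace Pool.Agent.MP_8eb1e4_pr.H39

variable {Ω : Type*} {d : ℕ} {mΩ : MeasurableSpace Ω} {P : Measure Ω}
  {X : (ℝ × ℝ) × Fin d → Ω → ℝ}

theorem ae_eventually_of_geom [IsProbabilityMeasure P] {s : ℕ → Set Ω} {C r : ℝ} (hr0 : 0 ≤ r)
    (hr1 : r < 1) (h : ∀ n, P.real (s n) ≤ C * r ^ n) : ∀ᵐ ω ∂P, ∀ᶠ n in atTop, ω ∉ s n := by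
  refine ae_eventually_notMem (ne_top_of_le_ne_top
    ((summable_geometric_of_lt_one hr0 hr1).mul_left C).tsum_ofReal_ne_top
    (ENNReal.tsum_le_tsum fun n => ?_))
  rw [← ofReal_measureReal]
  exact ENNReal.ofReal_le_ofReal (h n)

theorem card_grid (N : ℕ) : (grid N).card = N ^ 2 := by
  rw [grid, Finset.card_product, Nat.card_Ico, show 2 * N - N = N by omega, sq]

theorem Sheet.incr_tail (hX : Sheet d P X) (m : ℕ) {q : ℕ × ℕ} (hq : q ∈ grid (2 ^ (m + 1)))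
    (c : Fin d) {u : ℝ} (hu : 0 ≤ u) :
    P.real {ω | u ≤ |X (gpt (2 ^ (m + 1)) q, c) ω - X (gpt (2 ^ m) (q.1 / 2, q.2 / 2), c) ω|} ≤
      2 * Real.exp (-(u ^ 2 * 2 ^ m / 4)) := by
  have := hX.gauss.isProbabilityMeasure
  obtain ⟨a1, a2, a3, a4⟩ := gpt_mem (by positivity) hq
  have h2 : (0 : ℝ) < 2 ^ m := by positivity
  have key : ∀ i : ℕ, ((i / 2 : ℕ) : ℝ) / ((2 ^ m : ℕ) : ℝ) ≤ (i : ℝ) / ((2 ^ (m + 1) : ℕ) : ℝ) ∧
      (i : ℝ) / ((2 ^ (m + 1) : ℕ) : ℝ) ≤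
        ((i / 2 : ℕ) : ℝ) / ((2 ^ m : ℕ) : ℝ) + (2 ^ m)⁻¹ / 2 := by
    intro i
    have e1 : (2 : ℝ) * (i / 2 : ℕ) ≤ i := by exact_mod_cast (by omega : 2 * (i / 2) ≤ i)
    have e2 : (i : ℝ) ≤ 2 * (i / 2 : ℕ) + 1 := by exact_mod_cast (by omega : i ≤ 2 * (i / 2) + 1)
    generalize ((i / 2 : ℕ) : ℝ) = j at e1 e2
    push_cast
    have e3 : (i : ℝ) / 2 ^ (m + 1) = (i / 2) * (2 ^ m)⁻¹ := by rw [pow_succ]; field_simp
    rw [e3, div_eq_mul_inv j]
    have : (0 : ℝ) < (2 ^ m)⁻¹ := by positivity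
    constructor <;> nlinarith
  set s := (gpt (2 ^ (m + 1)) q).1 with hs
  set t := (gpt (2 ^ (m + 1)) q).2 with ht
  set s' := (gpt (2 ^ m) (q.1 / 2, q.2 / 2)).1 with hs'
  set t' := (gpt (2 ^ m) (q.1 / 2, q.2 / 2)).2 with ht'
  have b1 : s' ≤ s := (key q.1).1
  have b2 : s ≤ s' + (2 ^ m)⁻¹ / 2 := (key q.1).2
  have b3 : t' ≤ t := (key q.2).1
  have b4 : t ≤ t' + (2 ^ m)⁻¹ / 2 := (key q.2).2
  have b5 : 0 ≤ s' := by simp only [hs', gpt]; positivity
  have b6 : 0 ≤ t' := by simp only [ht', gpt]; positivity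
  have hz : (0 : ℝ) < (2 ^ m)⁻¹ := by positivity
  have hcov : cov[fun ω => X (gpt (2 ^ (m + 1)) q, c) ω - X (gpt (2 ^ m) (q.1 / 2, q.2 / 2), c) ω,
      fun ω => X (gpt (2 ^ (m + 1)) q, c) ω - X (gpt (2 ^ m) (q.1 / 2, q.2 / 2), c) ω; P] ≤
      2 * (2 ^ m)⁻¹ := by
    rw [covariance_fun_sub_fun_sub (hX.memLp _) (hX.memLp _) (hX.memLp _) (hX.memLp _),
      hX.cov _ _ (by simp only; linarith) (by simp only; linarith) (by simp only; linarith)
        (by simp only; linarith),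
      hX.cov _ _ (by simp only; linarith) (by simp only; linarith) (by simp only; linarith)
        (by simp only; linarith),
      hX.cov _ _ (by simp only; linarith) (by simp only; linarith) (by simp only; linarith)
        (by simp only; linarith),
      hX.cov _ _ (by simp only; linarith) (by simp only; linarith) (by simp only; linarith)
        (by simp only; linarith)]
    simp only [if_true, min_self, ← hs, ← ht, ← hs', ← ht']
    rw [min_eq_right b1, min_eq_right b3, min_eq_left b1, min_eq_left b3]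
    nlinarith
  have := gauss_tail hX.gauss.hasGaussianLaw_fun_sub
    (by rw [integral_sub (hX.integrable _) (hX.integrable _), hX.mean, hX.mean, sub_self])
    (by positivity) hcov hu
  refine this.trans (le_of_eq ?_)
  congr 2
  field_simp
  ring

theorem Sheet.ae_holder (hX : Sheet d P X) {ρ : ℝ} (hρ0 : 0 < ρ) (hρ : 1 < 2 * ρ ^ 2) :
    ∀ᵐ ω ∂P, ∀ᶠ m in atTop, ∀ q ∈ grid (2 ^ (m + 1)), ∀ c,
      |X (gpt (2 ^ (m + 1)) q, c) ω - X (gpt (2 ^ m) (q.1 / 2, q.2 / 2), c) ω| ≤ ρ ^ m := by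
  have := hX.gauss.isProbabilityMeasure
  set σ := 2 * ρ ^ 2 with hσ
  obtain ⟨k, hk⟩ := pow_unbounded_of_one_lt (4 : ℝ) hρ
  have hσ0 : 0 < σ := by positivity
  have h := ae_eventually_of_geom (P := P)
    (s := fun m => ⋃ q ∈ grid (2 ^ (m + 1)), ⋃ c ∈ (Finset.univ : Finset (Fin d)),
      {ω | ρ ^ m ≤ |X (gpt (2 ^ (m + 1)) q, c) ω - X (gpt (2 ^ m) (q.1 / 2, q.2 / 2), c) ω|})
    (C := 4 * d * 2 * k.factorial * 4 ^ k) (r := 4 / σ ^ k) (by positivity)
    (by rw [div_lt_one (by positivity)]; exact hk) ?_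
  · filter_upwards [h] with ω hω
    filter_upwards [hω] with m hm q hq c
    by_contra hlt
    exact hm (mem_iUnion₂.2 ⟨q, hq, mem_iUnion₂.2 ⟨c, Finset.mem_univ _, (not_le.1 hlt).le⟩⟩)
  · intro m
    have hexp : Real.exp (-((ρ ^ m) ^ 2 * 2 ^ m / 4)) ≤ k.factorial * 4 ^ k / (σ ^ k) ^ m := by
      have e : (ρ ^ m) ^ 2 * 2 ^ m / 4 = σ ^ m / 4 := by
        rw [hσ, mul_pow, ← pow_mul, ← pow_mul, mul_comm m 2, mul_comm]
      rw [e, Real.exp_neg]
      have h1 := Real.pow_div_factorial_le_exp (σ ^ m / 4) (by positivity) k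
      refine (inv_anti₀ (by positivity) h1).trans (le_of_eq ?_)
      rw [div_pow, ← pow_mul, ← pow_mul, mul_comm m k]
      field_simp
    refine (measureReal_biUnion_finset_le _ _).trans ?_
    calc _ ≤ ∑ _q ∈ grid (2 ^ (m + 1)), ∑ _c : Fin d,
          2 * (k.factorial * 4 ^ k / (σ ^ k) ^ m) :=
          Finset.sum_le_sum fun q hq => (measureReal_biUnion_finset_le _ _).trans
            (Finset.sum_le_sum fun c _ => (hX.incr_tail m hq c (by positivity)).trans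
              (by gcongr))
      _ = _ := by
          simp only [Finset.sum_const, card_grid, Finset.card_univ, Fintype.card_fin,
            nsmul_eq_mul]
          push_cast
          rw [div_pow, ← pow_mul, show (m + 1) * 2 = 2 * m + 2 by ring, pow_add, pow_mul]
          norm_num
          field_simp

/-- index of the grid square containing `x`. -/
noncomputable def idx (m : ℕ) (x : ℝ × ℝ) : ℕ × ℕ := (⌊x.1 * 2 ^ m⌋₊, ⌊x.2 * 2 ^ m⌋₊)

theorem idx_mem {x : ℝ × ℝ} (hx : x ∈ Ico (1 : ℝ) 2 ×ˢ Ico (1 : ℝ) 2) (m : ℕ) :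
    idx m x ∈ grid (2 ^ m) := by
  obtain ⟨⟨a1, a2⟩, ⟨a3, a4⟩⟩ := hx
  have h2 : (0 : ℝ) < 2 ^ m := by positivity
  simp only [idx, grid, Finset.mem_product, Finset.mem_Ico]
  refine ⟨⟨Nat.le_floor ?_, (Nat.floor_lt (by positivity)).2 ?_⟩,
    ⟨Nat.le_floor ?_, (Nat.floor_lt (by positivity)).2 ?_⟩⟩ <;> push_cast <;> nlinarith

theorem idx_succ (x : ℝ × ℝ) (m : ℕ) :
    ((idx (m + 1) x).1 / 2, (idx (m + 1) x).2 / 2) = idx m x := by
  simp only [idx]
  rw [← Nat.floor_div_ofNat, ← Nat.floor_div_ofNat, pow_succ, ← mul_assoc, ← mul_assoc,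
    mul_div_cancel_right₀ _ (by norm_num), mul_div_cancel_right₀ _ (by norm_num)]

theorem dist_idx {x : ℝ × ℝ} (hx : x ∈ Ico (1 : ℝ) 2 ×ˢ Ico (1 : ℝ) 2) (m : ℕ) :
    dist x (gpt (2 ^ m) (idx m x)) ≤ (1 / 2) ^ m := by
  obtain ⟨⟨a1, a2⟩, ⟨a3, a4⟩⟩ := hx
  have h2 : (0 : ℝ) < 2 ^ m := by positivity
  have key : ∀ s : ℝ, 0 ≤ s → |s - (⌊s * 2 ^ m⌋₊ : ℝ) / ((2 ^ m : ℕ) : ℝ)| ≤ (1 / 2) ^ m := by
    intro s hs
    have e1 := Nat.floor_le (show 0 ≤ s * 2 ^ m by positivity)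
    have e2 := Nat.lt_floor_add_one (s * 2 ^ m)
    push_cast
    have e3 : s - (⌊s * 2 ^ m⌋₊ : ℝ) / 2 ^ m = (s * 2 ^ m - ⌊s * 2 ^ m⌋₊) / 2 ^ m := by
      field_simp
    rw [e3, abs_div, abs_of_pos h2, one_div, inv_pow, ← one_div]
    gcongr
    rw [abs_le]; constructor <;> linarith
  rw [Prod.dist_eq, max_le_iff, Real.dist_eq, Real.dist_eq]
  exact ⟨key _ (by linarith), key _ (by linarith)⟩

theorem chain {f : ℝ × ℝ → ℝ} (hf : Continuous f) {ρ : ℝ} (hρ1 : ρ < 1) {n : ℕ}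
    (h : ∀ m ≥ n, ∀ q ∈ grid (2 ^ (m + 1)),
      |f (gpt (2 ^ (m + 1)) q) - f (gpt (2 ^ m) (q.1 / 2, q.2 / 2))| ≤ ρ ^ m)
    {x : ℝ × ℝ} (hx : x ∈ Ico (1 : ℝ) 2 ×ˢ Ico (1 : ℝ) 2) :
    |f (gpt (2 ^ n) (idx n x)) - f x| ≤ ρ ^ n / (1 - ρ) := by
  have ht : Tendsto (fun m => gpt (2 ^ m) (idx m x)) atTop (𝓝 x) := by
    rw [tendsto_iff_dist_tendsto_zero]
    refine squeeze_zero (fun _ => dist_nonneg) (fun m => ?_)
      (tendsto_pow_atTop_nhds_zero_of_lt_one (r := (1 / 2 : ℝ)) (by norm_num) (by norm_num))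
    rw [dist_comm]; exact dist_idx hx m
  have ht' : Tendsto (fun k => f (gpt (2 ^ (k + n)) (idx (k + n) x))) atTop (𝓝 (f x)) :=
    ((hf.tendsto x).comp ht).comp (tendsto_add_atTop_nat n)
  have := dist_le_of_le_geometric_of_tendsto₀ ρ (ρ ^ n) hρ1 (fun k => ?_) ht'
  · simpa [Real.dist_eq] using this
  · have h1 := h (k + n) (by omega) _ (idx_mem hx (k + n + 1))
    rw [idx_succ] at h1
    rw [Real.dist_eq, abs_sub_comm, show k + 1 + n = k + n + 1 by ring, ← pow_add, add_comm n k]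
    exact h1

theorem Sheet.upper_box (hX : Sheet d P X) {γ' : ℝ} (hγ0 : 0 < γ') (hγ : 2 - (d : ℝ) / 2 < γ') :
    ∀ᵐ ω ∂P, dimH {x | x ∈ Ico (1 : ℝ) 2 ×ˢ Ico (1 : ℝ) 2 ∧ ∀ i, X (x, i) ω = 0} ≤
      ENNReal.ofReal γ' := by
  classical
  have := hX.gauss.isProbabilityMeasure
  set γ : ℝ := 2 - (d : ℝ) / 2 with hγdef
  set η : ℝ := min (1 / 4) ((γ' - γ) / (2 * (d + 1))) with hη
  have hη0 : 0 < η := lt_min (by norm_num) (div_pos (by linarith) (by positivity))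
  have hη1 : η ≤ 1 / 4 := min_le_left _ _
  have hη2 : (d + 1) * η < γ' - γ := by
    have h1 : η ≤ (γ' - γ) / (2 * (d + 1)) := min_le_right _ _
    rw [le_div_iff₀ (by positivity)] at h1
    nlinarith [Nat.cast_nonneg (α := ℝ) d]
  set ρ : ℝ := 2 ^ (-(1 / 2 : ℝ) + η) with hρ
  set R : ℝ := 2 ^ (γ + (d + 1) * η) with hR
  have hρ0 : 0 < ρ := by positivity
  have hR0 : 0 < R := by positivity
  have hρ1 : ρ < 1 := Real.rpow_lt_one_of_one_lt_of_neg (by norm_num) (by linarith)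
  have hρ2 : 1 < 2 * ρ ^ 2 := by
    have e : 2 * ρ ^ 2 = 2 ^ (2 * η) := by
      rw [hρ, ← Real.rpow_natCast, ← Real.rpow_mul (by norm_num)]
      nth_rewrite 1 [← Real.rpow_one 2]
      rw [← Real.rpow_add (by norm_num)]
      congr 1; push_cast; ring
    rw [e]
    exact Real.one_lt_rpow (by norm_num) (by linarith)
  have hρ3 : 4 * ρ ^ d < R := by
    have e : 4 * ρ ^ d = 2 ^ (γ + d * η) := by
      rw [hρ, ← Real.rpow_natCast, ← Real.rpow_mul (by norm_num),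
        show (4 : ℝ) = 2 ^ (2 : ℝ) by norm_num, ← Real.rpow_add (by norm_num)]
      congr 1; rw [hγdef]; ring
    rw [e, hR]
    exact Real.rpow_lt_rpow_of_exponent_lt (by norm_num) (by linarith)
  have hR1 : R * (1 / 2) ^ γ' < 1 := by
    rw [one_div, Real.inv_rpow (by norm_num), ← div_eq_mul_inv, div_lt_one (by positivity), hR]
    exact Real.rpow_lt_rpow_of_exponent_lt (by norm_num) (by linarith)
  have h1ρ : 0 < 1 - ρ := by linarith
  let E : ℕ → ℕ × ℕ → Set Ω := fun n q => small X (ρ ^ n / (1 - ρ)) (gpt (2 ^ n) q)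
  have hE : ∀ n q, MeasurableSet (E n q) := fun n q => measurableSet_small fun _ => hX.meas _
  have hcount := ae_eventually_of_geom (P := P)
    (s := fun n => {ω | R ^ n ≤ cnt (E n) (grid (2 ^ n)) ω})
    (C := (1 / (1 - ρ) / √(1 / 2)) ^ d) (r := 4 * ρ ^ d / R) (by positivity)
    (by rw [div_lt_one hR0]; exact hρ3) (by
      intro n
      have h1 : ∫ ω, cnt (E n) (grid (2 ^ n)) ω ^ 1 ∂P ≤
          (4 ^ n * (ρ ^ n / (1 - ρ) / √(1 / 2)) ^ d) ^ 1 := by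
        simp only [pow_one]
        rw [integral_cnt _ _ fun q _ => hE n q]
        calc _ ≤ ∑ _q ∈ grid (2 ^ n), (ρ ^ n / (1 - ρ) / √(1 / 2)) ^ d := by
              refine Finset.sum_le_sum fun q hq => ?_
              obtain ⟨a1, a2, a3, a4⟩ := gpt_mem (by positivity) hq
              have := hX.lnd_vec (ι := ℕ × ℕ) (gpt (2 ^ n)) ∅ (by simp) (gpt (2 ^ n) q) a3
                one_pos a1 (by simp) (ε := ρ ^ n / (1 - ρ)) (by positivity)
              simpa using this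
          _ = _ := by
              rw [Finset.sum_const, card_grid, nsmul_eq_mul]
              push_cast
              rw [← pow_mul, mul_comm n 2, pow_mul]
              norm_num
      refine (markov_cnt _ _ (fun q _ => hE n q) 1 (by positivity) h1).trans (le_of_eq ?_)
      rw [pow_one, div_pow (4 * ρ ^ d), mul_pow, ← pow_mul, mul_comm d n, pow_mul, div_pow, div_pow,
        div_pow, div_pow, one_pow]
      field_simp)
  filter_upwards [hX.ae_holder hρ0 hρ2, hcount] with ω hhol hcnt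
  obtain ⟨n0, hn0⟩ := eventually_atTop.1 hhol
  refine dimH_le_of_hausdorffMeasure_ne_top (d := γ'.toNNReal) ?_
  rw [Real.coe_toNNReal _ hγ0.le]
  let t : ∀ n : ℕ, grid (2 ^ n) → Set (ℝ × ℝ) := fun n q =>
    if ω ∈ E n q then closedBall (gpt (2 ^ n) q) ((1 / 2) ^ n) else ∅
  have hdiam : ∀ n q, ediam (t n q) ≤ ENNReal.ofReal (2 * (1 / 2) ^ n) := by
    intro n q
    refine ediam_le_of_forall_dist_le fun x hx y hy => ?_
    simp only [t] at hx hy
    split_ifs at hx hy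
    · linarith [dist_triangle_right x y (gpt (2 ^ n) q), mem_closedBall.1 hx, mem_closedBall.1 hy]
    · exact absurd hx (notMem_empty _)
  have hr : Tendsto (fun n : ℕ => ENNReal.ofReal (2 * (1 / 2) ^ n)) atTop (𝓝 0) := by
    have := (tendsto_pow_atTop_nhds_zero_of_lt_one (r := (1 / 2 : ℝ)) (by norm_num)
      (by norm_num)).const_mul 2
    rw [mul_zero] at this
    simpa using ENNReal.tendsto_ofReal this
  have hle := Measure.hausdorffMeasure_le_liminf_sum γ'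
    {x | x ∈ Ico (1 : ℝ) 2 ×ˢ Ico (1 : ℝ) 2 ∧ ∀ i, X (x, i) ω = 0} _ hr t
    (Eventually.of_forall hdiam) (by
      filter_upwards [eventually_ge_atTop n0] with n hn x hx
      refine mem_iUnion.2 ⟨⟨idx n x, idx_mem hx.1 n⟩, ?_⟩
      have hin : ω ∈ E n (idx n x) := by
        intro i
        have := chain (hX.cont ω i) hρ1 (n := n) (fun m hm q hq => hn0 m (hn.trans hm) q hq i) hx.1
        rwa [hx.2 i, sub_zero] at this
      simp only [t, if_pos hin]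
      exact mem_closedBall.2 (dist_idx hx.1 n))
  have hsum : ∀ᶠ n in atTop, ∑ q, ediam (t n q) ^ γ' ≤
      ENNReal.ofReal (2 ^ γ' * (R * (1 / 2) ^ γ') ^ n) := by
    filter_upwards [hcnt] with n hn
    have hn' : cnt (E n) (grid (2 ^ n)) ω ≤ R ^ n := (not_le.1 hn).le
    calc ∑ q, ediam (t n q) ^ γ' ≤ ∑ q : grid (2 ^ n), ENNReal.ofReal
          ((E n q).indicator (fun _ => (1 : ℝ)) ω * (2 * (1 / 2) ^ n) ^ γ') := by
          refine Finset.sum_le_sum fun q _ => ?_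
          by_cases hq : ω ∈ E n q
          · rw [indicator_of_mem hq, one_mul,
              ← ENNReal.ofReal_rpow_of_nonneg (by positivity) hγ0.le]
            exact ENNReal.rpow_le_rpow (hdiam n q) hγ0.le
          · simp [t, hq, hγ0]
      _ = ENNReal.ofReal (cnt (E n) (grid (2 ^ n)) ω * (2 * (1 / 2) ^ n) ^ γ') := by
          rw [← ENNReal.ofReal_sum_of_nonneg fun q _ =>
            mul_nonneg (ind_nonneg _ _) (by positivity), cnt, Finset.sum_mul]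
          congr 1
          exact Finset.sum_coe_sort (grid (2 ^ n)) (fun q =>
            (E n q).indicator (fun _ => (1 : ℝ)) ω * (2 * (1 / 2) ^ n) ^ γ')
      _ ≤ _ := by
          apply ENNReal.ofReal_le_ofReal
          rw [Real.mul_rpow (by norm_num) (by positivity), ← Real.rpow_natCast,
            ← Real.rpow_mul (by norm_num), mul_comm (n : ℝ) γ', Real.rpow_mul (by norm_num),
            Real.rpow_natCast, mul_pow]
          calc _ ≤ R ^ n * (2 ^ γ' * ((1 / 2) ^ γ') ^ n) := by gcongr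
            _ = _ := by ring
  have hlim : Tendsto (fun n : ℕ => ENNReal.ofReal (2 ^ γ' * (R * (1 / 2) ^ γ') ^ n)) atTop
      (𝓝 0) := by
    have := (tendsto_pow_atTop_nhds_zero_of_lt_one (r := R * (1 / 2) ^ γ') (by positivity)
      hR1).const_mul (2 ^ γ')
    rw [mul_zero] at this
    simpa using ENNReal.tendsto_ofReal this
  have h0 : liminf (fun n => ∑ q, ediam (t n q) ^ γ') atTop ≤ 0 := by
    rw [← hlim.liminf_eq]
    exact liminf_le_liminf hsum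
  rw [le_antisymm (hle.trans h0) bot_le]
  exact ENNReal.zero_ne_top

theorem Sheet.upper (hX : Sheet d P X) (hd : d = 2 ∨ d = 3) :
    ∀ᵐ ω ∂P, dimH (zeros X ω) ≤ ENNReal.ofReal (2 - (d : ℝ) / 2) := by
  have hγ : (0 : ℝ) < 2 - (d : ℝ) / 2 := by rcases hd with rfl | rfl <;> norm_num
  have h : ∀ᵐ ω ∂P, ∀ (q : ℚ) (i j : ℤ), 2 - (d : ℝ) / 2 < q →
      dimH {x | x ∈ Ico (1 : ℝ) 2 ×ˢ Ico (1 : ℝ) 2 ∧
        ∀ c, scaleX (2 ^ i) (2 ^ j) X (x, c) ω = 0} ≤ ENNReal.ofReal q := by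
    refine ae_all_iff.2 fun q => ae_all_iff.2 fun i => ae_all_iff.2 fun j => ?_
    by_cases hq : 2 - (d : ℝ) / 2 < q
    · filter_upwards [(hX.scale (α := 2 ^ i) (β := 2 ^ j) (by positivity)
        (by positivity)).upper_box (hγ.trans hq) hq] with ω hω _ using hω
    · exact Eventually.of_forall fun ω h1 => absurd h1 hq
  filter_upwards [h] with ω hω
  by_contra hlt
  rw [not_le] at hlt
  obtain ⟨q, hq0, hq1, hq2⟩ := ENNReal.lt_iff_exists_rat_btwn.1 hlt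
  have hq3 : 2 - (d : ℝ) / 2 < q := (ENNReal.ofReal_lt_ofReal_iff_of_nonneg hγ.le).1 hq1
  refine absurd ?_ (not_le.2 hq2)
  have hsub : zeros X ω ⊆ ⋃ ij : ℤ × ℤ,
      (fun x : ℝ × ℝ => ((2 : ℝ) ^ ij.1 * x.1, (2 : ℝ) ^ ij.2 * x.2)) ''
        {x | x ∈ Ico (1 : ℝ) 2 ×ˢ Ico (1 : ℝ) 2 ∧
          ∀ c, scaleX (2 ^ ij.1) (2 ^ ij.2) X (x, c) ω = 0} := by
    rintro ⟨s, t⟩ ⟨hs, ht, hz⟩
    obtain ⟨i, hi1, hi2⟩ := exists_mem_Ico_zpow hs (show (1 : ℝ) < 2 by norm_num)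
    obtain ⟨j, hj1, hj2⟩ := exists_mem_Ico_zpow ht (show (1 : ℝ) < 2 by norm_num)
    rw [zpow_add_one₀ (by norm_num)] at hi2 hj2
    have h2i : (0 : ℝ) < 2 ^ i := by positivity
    have h2j : (0 : ℝ) < 2 ^ j := by positivity
    have e1 : (2 : ℝ) ^ i * (s / 2 ^ i) = s := by field_simp
    have e2 : (2 : ℝ) ^ j * (t / 2 ^ j) = t := by field_simp
    refine mem_iUnion.2 ⟨(i, j), (s / 2 ^ i, t / 2 ^ j), ⟨⟨⟨?_, ?_⟩, ⟨?_, ?_⟩⟩, fun c => ?_⟩, ?_⟩
    · exact (one_le_div h2i).2 hi1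
    · exact (div_lt_iff₀ h2i).2 (by linarith)
    · exact (one_le_div h2j).2 hj1
    · exact (div_lt_iff₀ h2j).2 (by linarith)
    · simp only [scaleX, e1, e2, hz c, mul_zero]
    · simp only [e1, e2]
  refine (dimH_mono hsub).trans ?_
  rw [dimH_iUnion]
  refine iSup_le fun ij => le_trans ?_ (hω q ij.1 ij.2 hq3)
  let L : (ℝ × ℝ) →L[ℝ] (ℝ × ℝ) :=
    (((2 : ℝ) ^ ij.1) • ContinuousLinearMap.fst ℝ ℝ ℝ).prod
      (((2 : ℝ) ^ ij.2) • ContinuousLinearMap.snd ℝ ℝ ℝ)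
  exact L.lipschitz.dimH_image_le _

end Pool.Agent.MP_8eb1e4_pr.H39
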